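import Pool.Agent.Helper704_OI.Prob

/-!
From agreement on typical structures to the zero-one law.
-/

namespace Pool.Agent.Helper704_OI

open Function Filter Topology

variable {C : Type}

theorem dens_zero [Finite C] {N M : ℕ} (hM : 0 < M)
    (Q : ∀ n : ℕ, Set (SimpleGraph (Fin n) × (C → Fin n → Prop))) (n₀ : ℕ)
    (h : ∀ n, n₀ ≤ n → ∀ ω ∈ TypS C N M n, ω ∉ Q n) :
    Tendsto (fun n => ((Q n).ncard : ℝ) /
      (Nat.card (SimpleGraph (Fin n) × (C → Fin n → Prop)) : ℝ)) atTop (𝓝 0) := by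
  refine squeeze_zero' ?_ ?_ (bad_tendsto C N M hM)
  · filter_upwards with n
    positivity
  · filter_upwards [eventually_ge_atTop n₀] with n hn
    have hsub : Q n ⊆ (TypS C N M n)ᶜ := fun ω hω hT => h n hn ω hT hω
    have : ((Q n).ncard : ℝ) ≤ (((TypS C N M n)ᶜ).ncard : ℝ) := by
      exact_mod_cast Set.ncard_le_ncard hsub (Set.toFinite _)
    gcongr

theorem dens_one [Finite C] {N M : ℕ} (hM : 0 < M)
    (Q : ∀ n : ℕ, Set (SimpleGraph (Fin n) × (C → Fin n → Prop))) (n₀ : ℕ)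
    (h : ∀ n, n₀ ≤ n → ∀ ω ∈ TypS C N M n, ω ∈ Q n) :
    Tendsto (fun n => ((Q n).ncard : ℝ) /
      (Nat.card (SimpleGraph (Fin n) × (C → Fin n → Prop)) : ℝ)) atTop (𝓝 1) := by
  have h0 := dens_zero (C := C) (N := N) hM (fun n => (Q n)ᶜ) n₀
    (fun n hn ω hω hc => hc (h n hn ω hω))
  have h1 : Tendsto (fun n => (1 : ℝ) - (((Q n)ᶜ).ncard : ℝ) /
      (Nat.card (SimpleGraph (Fin n) × (C → Fin n → Prop)) : ℝ)) atTop (𝓝 (1 - 0)) :=
    h0.const_sub 1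
  rw [sub_zero] at h1
  refine h1.congr ?_
  intro n
  have htot : (0 : ℝ) < (Nat.card (SimpleGraph (Fin n) × (C → Fin n → Prop)) : ℝ) := by
    have : Nonempty (SimpleGraph (Fin n) × (C → Fin n → Prop)) := ⟨(⊥, fun _ _ => True)⟩
    exact_mod_cast Nat.card_pos
  have hsum : (Q n).ncard + ((Q n)ᶜ).ncard =
      Nat.card (SimpleGraph (Fin n) × (C → Fin n → Prop)) := Set.ncard_add_ncard_compl _
  have hsum' : ((Q n).ncard : ℝ) + (((Q n)ᶜ).ncard : ℝ) =
      (Nat.card (SimpleGraph (Fin n) × (C → Fin n → Prop)) : ℝ) := by exact_mod_cast hsum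
  rw [← hsum'] at htot ⊢
  field_simp
  ring

theorem mu_eq (φ : Fml C) (n : ℕ) :
    mu φ n = (({S : SimpleGraph (Fin n) × (C → Fin n → Prop) | Holds S.1 S.2 (· < ·) φ}).ncard : ℝ) /
      (Nat.card (SimpleGraph (Fin n) × (C → Fin n → Prop)) : ℝ) := rfl

theorem lt_strict (n : ℕ) : IsStrictTotalOrder (Fin n) (· < ·) := inferInstance

/-- If any two typical structures have orders on which `φ` has the same truth value, then an
order-invariant `φ` has a zero-one law. -/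
theorem zero_one_of_agree [Finite C] (φ : Fml C) (hinv : OrderInvariant φ) {N M : ℕ}
    (hM : 0 < M)
    (H : ∀ (n m : ℕ), 0 < n → 0 < m → ∀ ω ∈ TypS C N M n, ∀ ω' ∈ TypS C N M m,
      ∃ (r : Fin n → Fin n → Prop) (r' : Fin m → Fin m → Prop), IsStrictTotalOrder (Fin n) r ∧
        IsStrictTotalOrder (Fin m) r' ∧ (Holds ω.1 ω.2 r φ ↔ Holds ω'.1 ω'.2 r' φ)) :
    Tendsto (mu φ) atTop (𝓝 0) ∨ Tendsto (mu φ) atTop (𝓝 1) := by
  have H' : ∀ (n m : ℕ), 0 < n → 0 < m → ∀ ω ∈ TypS C N M n, ∀ ω' ∈ TypS C N M m,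
      (Holds ω.1 ω.2 (· < ·) φ ↔ Holds ω'.1 ω'.2 (· < ·) φ) := by
    intro n m hn hm ω hω ω' hω'
    obtain ⟨r, r', h1, h2, h3⟩ := H n m hn hm ω hω ω' hω'
    rw [hinv n ω.1 ω.2 (· < ·) r (lt_strict n) h1, h3,
      hinv m ω'.1 ω'.2 r' (· < ·) h2 (lt_strict m)]
  by_cases hex : ∃ n, 0 < n ∧ ∃ ω ∈ TypS C N M n, Holds ω.1 ω.2 (· < ·) φ
  · right
    obtain ⟨n, hn, ω, hω, hh⟩ := hex
    exact dens_one (N := N) hM
      (fun m => {S : SimpleGraph (Fin m) × (C → Fin m → Prop) | Holds S.1 S.2 (· < ·) φ}) 1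
      (fun m hm ω' hω' => (H' n m hn hm ω hω ω' hω').1 hh)
  · left
    push Not at hex
    exact dens_zero (N := N) hM
      (fun m => {S : SimpleGraph (Fin m) × (C → Fin m → Prop) | Holds S.1 S.2 (· < ·) φ}) 1
      (fun m hm ω' hω' => hex m hm ω' hω')

end Pool.Agent.Helper704_OI
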