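import Pool.Agent.Helper704_OI.Frag2
import Pool.Agent.Helper704_OI.Dens

/-!
Block extensions of ordered graphs and preservation of formulas with unnested universal
quantifiers.
-/

namespace Pool.Agent.Helper704_OI

open Function Filter Topology

variable {C V W : Type}

/-- `G` is a block extension of `G₀` over the set of constants `A`. -/
structure BlockExt (G₀ : SimpleGraph V) (P₀ : C → V → Prop) (r₀ : V → V → Prop)
    (A : Finset V) (G : SimpleGraph W) (P : C → W → Prop) (r : W → W → Prop) (q : ℕ) where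
  ρ : W → V
  j : V → W
  ρj : ∀ a ∈ A, ρ (j a) = a
  uniq : ∀ w, ρ w ∈ A → w = j (ρ w)
  ord : ∀ u v, r₀ (ρ u) (ρ v) → r u v
  asym : ∀ u v, r u v → ¬ r v u
  asym₀ : ∀ u v, r₀ u v → ¬ r₀ v u
  tot₀ : ∀ u v, u ≠ v → r₀ u v ∨ r₀ v u
  col : ∀ w c, (P c w ↔ P₀ c (ρ w))
  adj : ∀ w, ∀ a ∈ A, (G.Adj w (j a) ↔ G₀.Adj (ρ w) a)
  rich : ∀ v, v ∉ A → ∀ X : Finset W, X.card ≤ q → ∀ t : W → Prop,
    (∀ a ∈ A, j a ∈ X → (t (j a) ↔ G₀.Adj v a)) →
      ∃ w, w ∉ X ∧ ρ w = v ∧ ∀ x ∈ X, (G.Adj w x ↔ t x)

section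
variable {G₀ : SimpleGraph V} {P₀ : C → V → Prop} {r₀ : V → V → Prop}
    {A : Finset V} {G : SimpleGraph W} {P : C → W → Prop} {r : W → W → Prop} {q N k : ℕ}

/-- `β` is a lift of `α` on the variables in `F` -/
def Lift (B : BlockExt G₀ P₀ r₀ A G P r q) (F : Finset ℕ) (α : ℕ → V) (β : ℕ → W) : Prop :=
  (∀ i ∈ F, B.ρ (β i) = α i) ∧
    ∀ i ∈ F, ∀ l ∈ F, (α i = α l ↔ β i = β l) ∧ (G₀.Adj (α i) (α l) ↔ G.Adj (β i) (β l))

theorem Lift.mono {B : BlockExt G₀ P₀ r₀ A G P r q} {F F' : Finset ℕ} {α : ℕ → V} {β : ℕ → W}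
    (h : Lift B F α β) (hF : F' ⊆ F) : Lift B F' α β :=
  ⟨fun i hi => h.1 i (hF hi), fun i hi l hl => h.2 i (hF hi) l (hF hl)⟩

theorem sat_ofq (B : BlockExt G₀ P₀ r₀ A G P r q) (hE₀ : Ext G₀ P₀ N k) (hE : Ext G P N k)
    (φ : Fml C) : OFQ φ → sz φ ≤ N → mk φ ≤ k → ∀ (α : ℕ → V) (β : ℕ → W),
      Lift B (fv φ) α β → (Sat G₀ P₀ r₀ φ α ↔ Sat G P r φ β) := by
  induction φ with
  | eq i l =>
    intro _ _ _ α β h
    exact (h.2 i (by simp [fv]) l (by simp [fv])).1
  | adj i l =>
    intro _ _ _ α β h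
    exact (h.2 i (by simp [fv]) l (by simp [fv])).2
  | col c i =>
    intro _ _ _ α β h
    have := h.1 i (by simp [fv])
    show P₀ c (α i) ↔ P c (β i)
    rw [B.col, this]
  | lt i l =>
    intro _ _ _ α β h
    show r₀ (α i) (α l) ↔ r (β i) (β l)
    have hi := h.1 i (by simp [fv])
    have hl := h.1 l (by simp [fv])
    have heq := (h.2 i (by simp [fv]) l (by simp [fv])).1
    constructor
    · intro hr
      apply B.ord
      rw [hi, hl]; exact hr
    · intro hr
      by_cases hne : α i = α l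
      · rw [heq.1 hne] at hr
        exact absurd hr (B.asym _ _ hr)
      · rcases B.tot₀ _ _ hne with h1 | h1
        · exact h1
        · have : r (β l) (β i) := by
            apply B.ord
            rw [hi, hl]; exact h1
          exact absurd this (B.asym _ _ hr)
  | neg φ ih =>
    intro h1 h2 h3 α β h
    exact not_congr (ih h1 h2 h3 α β h)
  | and φ ψ ih1 ih2 =>
    intro h1 h2 h3 α β h
    simp only [sz] at h2
    simp only [mk] at h3
    exact and_congr (ih1 h1.1 (by omega) (by omega) α β (h.mono Finset.subset_union_left))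
      (ih2 h1.2 (by omega) (by omega) α β (h.mono Finset.subset_union_right))
  | exGe k' x φ ih =>
    intro h1 h2 h3 α β h
    refine sat_free hE₀ hE (Fml.exGe k' x φ) h2 h3 h1 α β ?_ ?_
    · intro i hi l hl; exact h.2 i hi l hl
    · intro i hi c
      rw [B.col, h.1 i hi]

theorem sat_pos1 (B : BlockExt G₀ P₀ r₀ A G P r q) (hE₀ : Ext G₀ P₀ N k) (hE : Ext G P N k)
    {φ : Fml C} (hφ : Pos1 φ) : sz φ ≤ N → mk φ ≤ k → sz φ ≤ q → ∀ (α : ℕ → V) (β : ℕ → W),
      Lift B (fv φ) α β → Sat G₀ P₀ r₀ φ α → Sat G P r φ β := by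
  classical
  induction hφ with
  | base φ h =>
    intro h1 h2 _ α β hL hs
    exact (sat_ofq B hE₀ hE φ h h1 h2 α β hL).1 hs
  | and φ ψ _ _ ih1 ih2 =>
    intro h1 h2 h3 α β hL hs
    simp only [sz] at h1 h3
    simp only [mk] at h2
    exact ⟨ih1 (by omega) (by omega) (by omega) α β (hL.mono Finset.subset_union_left) hs.1,
      ih2 (by omega) (by omega) (by omega) α β (hL.mono Finset.subset_union_right) hs.2⟩
  | or φ ψ _ _ ih1 ih2 =>
    intro h1 h2 h3 α β hL hs
    simp only [sz] at h1 h3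
    simp only [mk] at h2
    simp only [Sat, not_and_or, not_not] at hs ⊢
    rcases hs with hs | hs
    · left
      exact ih1 (by omega) (by omega) (by omega) α β (hL.mono Finset.subset_union_left) hs
    · right
      exact ih2 (by omega) (by omega) (by omega) α β (hL.mono Finset.subset_union_right) hs
  | ex k' i φ _ ih =>
    intro h1 h2 h3 α β hL hs
    simp only [sz] at h1 h3
    simp only [mk] at h2
    obtain ⟨Z, hZ, hZs⟩ := hs
    have hfv : fv (Fml.exGe k' i φ) = (fv φ).erase i := rfl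
    rw [hfv] at hL
    -- lift one witness
    have key : ∀ a : V, ∃ b : W, B.ρ b = a ∧ ∀ l ∈ (fv φ).erase i,
        (a = α l ↔ b = β l) ∧ (G₀.Adj a (α l) ↔ G.Adj b (β l)) := by
      intro a
      by_cases haA : a ∈ A
      · refine ⟨B.j a, B.ρj a haA, ?_⟩
        intro l hl
        have hρ := hL.1 l hl
        refine ⟨⟨?_, ?_⟩, ?_⟩
        · intro h
          have : B.ρ (β l) ∈ A := by rw [hρ, ← h]; exact haA
          rw [B.uniq _ this, hρ, h]
        · intro h
          rw [← hρ, ← h, B.ρj a haA]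
        · rw [G.adj_comm, B.adj _ a haA, hρ, G₀.adj_comm]
      · by_cases hex : ∃ l ∈ (fv φ).erase i, α l = a
        · obtain ⟨l₀, hl₀, rfl⟩ := hex
          exact ⟨β l₀, hL.1 l₀ hl₀, fun l hl => hL.2 l₀ hl₀ l hl⟩
        · obtain ⟨w, hw1, hw2, hw3⟩ := B.rich a haA (((fv φ).erase i).image β)
            ((Finset.card_image_le).trans (((Finset.card_erase_le).trans (fv_card_le φ)).trans h3))
            (fun x => ∃ l ∈ (fv φ).erase i, β l = x ∧ G₀.Adj a (α l)) (by
              intro a' ha' hx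
              constructor
              · rintro ⟨l, hl, hlj, hadj⟩
                have : α l = a' := by rw [← hL.1 l hl, hlj, B.ρj a' ha']
                rw [← this]; exact hadj
              · intro hadj
                obtain ⟨l, hl, hlj⟩ := Finset.mem_image.1 hx
                refine ⟨l, hl, hlj, ?_⟩
                have : α l = a' := by rw [← hL.1 l hl, hlj, B.ρj a' ha']
                rw [this]; exact hadj)
          refine ⟨w, hw2, ?_⟩
          intro l hl
          refine ⟨⟨?_, ?_⟩, ?_⟩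
          · intro h; exact absurd ⟨l, hl, h.symm⟩ hex
          · intro h; exact absurd (by rw [h]; exact Finset.mem_image_of_mem β hl) hw1
          · rw [hw3 (β l) (Finset.mem_image_of_mem β hl)]
            constructor
            · intro h; exact ⟨l, hl, rfl, h⟩
            · rintro ⟨l', hl', hll', h⟩
              rw [← (hL.2 l' hl' l hl).1.2 hll']; exact h
    choose b hb using key
    have hbinj : Injective b := by
      intro x y hxy
      rw [← (hb x).1, ← (hb y).1, hxy]
    refine ⟨Z.image b, by rw [Finset.card_image_of_injective _ hbinj, hZ], ?_⟩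
    intro w hw
    obtain ⟨a, ha, rfl⟩ := Finset.mem_image.1 hw
    refine ih h1 (by omega) h3 (update α i a) (update β i (b a)) ?_ (hZs a ha)
    refine ⟨?_, ?_⟩
    · intro l hl
      by_cases hli : l = i
      · subst hli; rw [update_self, update_self]; exact (hb a).1
      · rw [update_of_ne hli, update_of_ne hli]
        exact hL.1 l (Finset.mem_erase.2 ⟨hli, hl⟩)
    · intro l hl l' hl'
      by_cases hli : l = i
      · subst hli
        by_cases hli' : l' = l
        · subst hli'; simp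
        · rw [update_self, update_self, update_of_ne hli', update_of_ne hli']
          exact (hb a).2 l' (Finset.mem_erase.2 ⟨hli', hl'⟩)
      · by_cases hli' : l' = i
        · subst hli'
          rw [update_self, update_self, update_of_ne hli, update_of_ne hli]
          have := (hb a).2 l (Finset.mem_erase.2 ⟨hli, hl⟩)
          refine ⟨?_, ?_⟩
          · rw [eq_comm, this.1, eq_comm]
          · rw [G₀.adj_comm, this.2, G.adj_comm]
        · rw [update_of_ne hli, update_of_ne hli, update_of_ne hli', update_of_ne hli']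
          exact hL.2 l (Finset.mem_erase.2 ⟨hli, hl⟩) l' (Finset.mem_erase.2 ⟨hli', hl'⟩)

end

/-- bound for the number of constants -/
def wd : Fml C → ℕ
  | .eq _ _ => 0
  | .adj _ _ => 0
  | .col _ _ => 0
  | .lt _ _ => 0
  | .neg φ => wd φ
  | .and φ ψ => wd φ + wd ψ
  | .exGe k _ φ => k * (1 + wd φ)

theorem sat_pos2 {G₀ : SimpleGraph V} {P₀ : C → V → Prop} {r₀ : V → V → Prop} {N k : ℕ}
    (hE₀ : Ext G₀ P₀ N k)
    {φ : Fml C} (hφ : Pos2 φ) : sz φ ≤ N → mk φ ≤ k → ∀ (α : ℕ → V), Sat G₀ P₀ r₀ φ α →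
      ∃ A₀ : Finset V, A₀.card ≤ wd φ ∧ ∀ A : Finset V, A₀ ⊆ A → (∀ i ∈ fv φ, α i ∈ A) →
        ∀ (W : Type) (G : SimpleGraph W) (P : C → W → Prop) (r : W → W → Prop) (q : ℕ),
          sz φ ≤ q → Ext G P N k → ∀ B : BlockExt G₀ P₀ r₀ A G P r q,
            Sat G P r φ (fun i => B.j (α i)) := by
  classical
  have liftA : ∀ (F : Finset ℕ) (α : ℕ → V) (A : Finset V), (∀ i ∈ F, α i ∈ A) →
      ∀ (W : Type) (G : SimpleGraph W) (P : C → W → Prop) (r : W → W → Prop) (q : ℕ)
        (B : BlockExt G₀ P₀ r₀ A G P r q), Lift B F α (fun i => B.j (α i)) := by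
    intro F α A hA W G P r q B
    refine ⟨fun i hi => B.ρj _ (hA i hi), ?_⟩
    intro i hi l hl
    refine ⟨⟨fun h => by simp only [h], fun h => ?_⟩, ?_⟩
    · have h' : B.ρ (B.j (α i)) = B.ρ (B.j (α l)) := congrArg B.ρ h
      rw [B.ρj _ (hA i hi), B.ρj _ (hA l hl)] at h'
      exact h'
    · rw [B.adj _ _ (hA l hl), B.ρj _ (hA i hi)]
  induction hφ with
  | base φ h =>
    intro h1 h2 α hs
    refine ⟨∅, by simp, ?_⟩
    intro A _ hA W G P r q hq hE B
    exact sat_pos1 B hE₀ hE h h1 h2 hq α _ (liftA _ α A hA W G P r q B) hs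
  | all i φ h =>
    intro h1 h2 α hs
    refine ⟨∅, by simp, ?_⟩
    intro A _ hA W G P r q hq hE B hneg
    simp only [sz] at h1 hq
    simp only [mk] at h2
    obtain ⟨Z, hZ, hZs⟩ := hneg
    obtain ⟨b, rfl⟩ := Finset.card_eq_one.1 hZ
    have hb := hZs b (by simp)
    apply hb
    have hM : Sat G₀ P₀ r₀ φ (update α i (B.ρ b)) := by
      by_contra hc
      exact hs ⟨{B.ρ b}, by simp, fun a ha => by
        rw [Finset.mem_singleton.1 ha]; exact hc⟩
    have hA' : ∀ l ∈ fv φ, l ≠ i → α l ∈ A := fun l hl hli =>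
      hA l (show l ∈ (fv φ).erase i from Finset.mem_erase.2 ⟨hli, hl⟩)
    refine sat_pos1 B hE₀ hE h h1 (by omega) hq (update α i (B.ρ b)) _ ?_ hM
    have hpair : ∀ l, l ∈ fv φ → l ≠ i → (B.ρ b = α l ↔ b = B.j (α l)) ∧
        (G₀.Adj (B.ρ b) (α l) ↔ G.Adj b (B.j (α l))) := by
      intro l hl hli
      refine ⟨⟨?_, ?_⟩, ?_⟩
      · intro h
        have : B.ρ b ∈ A := by rw [h]; exact hA' l hl hli
        rw [← h]; exact B.uniq _ this
      · intro h
        rw [h, B.ρj _ (hA' l hl hli)]
      · exact (B.adj _ _ (hA' l hl hli)).symm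
    refine ⟨?_, ?_⟩
    · intro l hl
      by_cases hli : l = i
      · subst hli; rw [update_self, update_self]
      · rw [update_of_ne hli, update_of_ne hli]
        exact B.ρj _ (hA' l hl hli)
    · intro l hl l' hl'
      by_cases hli : l = i
      · subst hli
        by_cases hli' : l' = l
        · subst hli'; simp
        · rw [update_self, update_self, update_of_ne hli', update_of_ne hli']
          exact hpair l' hl' hli'
      · by_cases hli' : l' = i
        · subst hli'
          rw [update_self, update_self, update_of_ne hli, update_of_ne hli]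
          have := hpair l hl hli
          refine ⟨?_, ?_⟩
          · rw [eq_comm, this.1, eq_comm]
          · rw [G₀.adj_comm, this.2, G.adj_comm]
        · rw [update_of_ne hli, update_of_ne hli, update_of_ne hli', update_of_ne hli']
          exact (liftA {l, l'} α A (by
            intro x hx
            rcases Finset.mem_insert.1 hx with rfl | hx
            · exact hA' _ hl hli
            · rw [Finset.mem_singleton.1 hx]; exact hA' _ hl' hli') W G P r q B).2 l (by simp)
              l' (by simp)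
  | and φ ψ _ _ ih1 ih2 =>
    intro h1 h2 α hs
    simp only [sz] at h1
    simp only [mk] at h2
    obtain ⟨A₁, hA₁, H₁⟩ := ih1 (by omega) (by omega) α hs.1
    obtain ⟨A₂, hA₂, H₂⟩ := ih2 (by omega) (by omega) α hs.2
    refine ⟨A₁ ∪ A₂, (Finset.card_union_le _ _).trans (Nat.add_le_add hA₁ hA₂), ?_⟩
    intro A hAA hA W G P r q hq hE B
    simp only [sz] at hq
    exact ⟨H₁ A (Finset.subset_union_left.trans hAA)
        (fun i hi => hA i (Finset.mem_union_left _ hi)) W G P r q (by omega) hE B,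
      H₂ A (Finset.subset_union_right.trans hAA)
        (fun i hi => hA i (Finset.mem_union_right _ hi)) W G P r q (by omega) hE B⟩
  | or φ ψ _ _ ih1 ih2 =>
    intro h1 h2 α hs
    simp only [sz] at h1
    simp only [mk] at h2
    simp only [Sat, not_and_or, not_not] at hs
    rcases hs with hs | hs
    · obtain ⟨A₁, hA₁, H₁⟩ := ih1 (by omega) (by omega) α hs
      refine ⟨A₁, hA₁.trans (Nat.le_add_right _ _), ?_⟩
      intro A hAA hA W G P r q hq hE B
      simp only [sz] at hq
      simp only [Sat, not_and_or, not_not]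
      left
      exact H₁ A hAA (fun i hi => hA i (Finset.mem_union_left _ hi)) W G P r q (by omega) hE B
    · obtain ⟨A₂, hA₂, H₂⟩ := ih2 (by omega) (by omega) α hs
      refine ⟨A₂, hA₂.trans (Nat.le_add_left _ _), ?_⟩
      intro A hAA hA W G P r q hq hE B
      simp only [sz] at hq
      simp only [Sat, not_and_or, not_not]
      right
      exact H₂ A hAA (fun i hi => hA i (Finset.mem_union_right _ hi)) W G P r q (by omega) hE B
  | ex k' i φ _ ih =>
    intro h1 h2 α hs
    simp only [sz] at h1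
    simp only [mk] at h2
    obtain ⟨Z, hZ, hZs⟩ := hs
    have h3 : ∀ a : V, ∃ A₀ : Finset V, A₀.card ≤ wd φ ∧ (a ∈ Z → ∀ A : Finset V, A₀ ⊆ A →
        (∀ l ∈ fv φ, update α i a l ∈ A) →
        ∀ (W : Type) (G : SimpleGraph W) (P : C → W → Prop) (r : W → W → Prop) (q : ℕ),
          sz φ ≤ q → Ext G P N k → ∀ B : BlockExt G₀ P₀ r₀ A G P r q,
            Sat G P r φ (fun l => B.j (update α i a l))) := by
      intro a
      by_cases ha : a ∈ Z
      · obtain ⟨A₀, hA₀, H⟩ := ih h1 (by omega) (update α i a) (hZs a ha)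
        exact ⟨A₀, hA₀, fun _ => H⟩
      · exact ⟨∅, by simp, fun h => absurd h ha⟩
    choose f hf1 hf2 using h3
    refine ⟨Z ∪ Z.biUnion f, ?_, ?_⟩
    · have e1 : (Z.biUnion f).card ≤ Z.card * wd φ :=
        Finset.card_biUnion_le_card_mul Z f _ (fun a _ => hf1 a)
      have e2 := Finset.card_union_le Z (Z.biUnion f)
      simp only [wd]
      rw [hZ] at e1 e2
      calc (Z ∪ Z.biUnion f).card ≤ k' + k' * wd φ := e2.trans (Nat.add_le_add_left e1 _)
        _ = k' * (1 + wd φ) := by ring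
    · intro A hAA hA W G P r q hq hE B
      simp only [sz] at hq
      have hZA : ∀ a ∈ Z, a ∈ A := fun a ha => hAA (Finset.mem_union_left _ ha)
      refine ⟨Z.image B.j, ?_, ?_⟩
      · rw [Finset.card_image_of_injOn, hZ]
        intro a ha b hb hab
        have h' : B.ρ (B.j a) = B.ρ (B.j b) := congrArg B.ρ hab
        rw [B.ρj _ (hZA a (by simpa using ha)), B.ρj _ (hZA b (by simpa using hb))] at h'
        exact h'
      · intro w hw
        obtain ⟨a, ha, rfl⟩ := Finset.mem_image.1 hw
        have := hf2 a ha A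
          (fun x hx => hAA (Finset.mem_union_right _ (Finset.mem_biUnion.2 ⟨a, ha, hx⟩)))
          (by
            intro l hl
            by_cases hli : l = i
            · subst hli; rw [update_self]; exact hZA a ha
            · rw [update_of_ne hli]
              exact hA l (show l ∈ (fv φ).erase i from Finset.mem_erase.2 ⟨hli, hl⟩))
          W G P r q hq hE B
        have e : (fun l => B.j (update α i a l)) = update (fun l => B.j (α l)) i (B.j a) := by
          funext l
          by_cases hli : l = i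
          · subst hli; simp
          · simp [update_of_ne hli]
        rw [e] at this
        exact this

/-- Existence of block extensions. -/
theorem exists_blockExt {m n N q w : ℕ} {G₀ : SimpleGraph (Fin m)} {P₀ : C → Fin m → Prop}
    {r₀ : Fin m → Fin m → Prop} (hr₀ : IsStrictTotalOrder (Fin m) r₀) (hm : 0 < m) (hn : 0 < n)
    (hE₀ : Ext G₀ P₀ w 1)
    (A : Finset (Fin m)) (hA : A.card ≤ w) (G : SimpleGraph (Fin n)) (P : C → Fin n → Prop)
    (hE : ExtR G P N m) (hN : q + w ≤ N) :
    ∃ r : Fin n → Fin n → Prop, IsStrictTotalOrder (Fin n) r ∧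
      Nonempty (BlockExt G₀ P₀ r₀ A G P r q) := by
  classical
  have : Nonempty (Fin n) := ⟨⟨0, hn⟩⟩
  have : Nonempty (Fin m) := ⟨⟨0, hm⟩⟩
  obtain ⟨e, he, headj, hecol⟩ := exists_emb (S := {a // a ∈ A}) (N := N)
    (hE.ext (k := 1) (by omega)) (fun a b => G₀.Adj a.1 b.1) (fun a b h => h.symm)
    (fun a h => G₀.loopless.irrefl _ h) (fun a c => P₀ c a.1) (by
      rw [Nat.card_eq_fintype_card, Fintype.card_coe]; omega)
  let j : Fin m → Fin n := fun a => if h : a ∈ A then e ⟨a, h⟩ else ⟨0, hn⟩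
  have hj : ∀ a (h : a ∈ A), j a = e ⟨a, h⟩ := fun a h => by simp only [j, dif_pos h]
  have hjinj : ∀ a ∈ A, ∀ b ∈ A, j a = j b → a = b := by
    intro a ha b hb h
    rw [hj a ha, hj b hb] at h
    exact congrArg Subtype.val (he h)
  have hjadj : ∀ a ∈ A, ∀ b ∈ A, (G.Adj (j a) (j b) ↔ G₀.Adj a b) := by
    intro a ha b hb
    rw [hj a ha, hj b hb, headj]
  have hjcol : ∀ a ∈ A, ∀ c, (P c (j a) ↔ P₀ c a) := by
    intro a ha c
    rw [hj a ha, hecol]
  let good : Fin n → Fin m → Prop := fun u v => v ∉ A ∧ (∀ c, P c u ↔ P₀ c v) ∧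
    ∀ a ∈ A, (G.Adj u (j a) ↔ G₀.Adj v a)
  have hgood : ∀ u, ∃ v, good u v := by
    intro u
    obtain ⟨f, -, hf⟩ := hE₀ A hA (fun a => G.Adj u (j a)) (fun c => P c u)
    obtain ⟨h1, h2, h3⟩ := hf 0
    exact ⟨f 0, h1, fun c => (h3 c).symm, fun a ha => (h2 a ha).symm⟩
  let ρ : Fin n → Fin m := fun u =>
    if h : ∃ a ∈ A, j a = u then h.choose
    else if good u ⟨u.val % m, Nat.mod_lt _ hm⟩ then ⟨u.val % m, Nat.mod_lt _ hm⟩
    else (hgood u).choose
  have hρA : ∀ a ∈ A, ρ (j a) = a := by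
    intro a ha
    have h : ∃ a' ∈ A, j a' = j a := ⟨a, ha, rfl⟩
    have h' := h.choose_spec
    have : ρ (j a) = h.choose := by simp only [ρ]; rw [dif_pos h]
    rw [this]
    exact hjinj _ h'.1 _ ha h'.2
  have hρO : ∀ u, (¬ ∃ a ∈ A, j a = u) → good u (ρ u) := by
    intro u hu
    simp only [ρ]
    rw [dif_neg hu]
    split_ifs with hg
    · exact hg
    · exact (hgood u).choose_spec
  have hρR : ∀ u (v : Fin m), (¬ ∃ a ∈ A, j a = u) → u.val % m = v.val → good u v → ρ u = v := by
    intro u v hu huv hg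
    have hv : (⟨u.val % m, Nat.mod_lt _ hm⟩ : Fin m) = v := Fin.ext huv
    simp only [ρ]
    rw [dif_neg hu, hv, if_pos hg]
  let r : Fin n → Fin n → Prop := fun u v => r₀ (ρ u) (ρ v) ∨ (ρ u = ρ v ∧ u < v)
  have hr : IsStrictTotalOrder (Fin n) r :=
    { trichotomous := by
        intro a b h1 h2
        simp only [r, not_or, not_and] at h1 h2
        have e1 : ρ a = ρ b := hr₀.trichotomous _ _ h1.1 h2.1
        have e2 := h1.2 e1
        have e3 := h2.2 e1.symm
        exact le_antisymm (not_lt.1 e3) (not_lt.1 e2)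
      irrefl := by
        intro a h
        rcases h with h | ⟨_, h⟩
        · exact hr₀.irrefl _ h
        · exact lt_irrefl _ h
      trans := by
        intro a b c h1 h2
        rcases h1 with h1 | ⟨h1, h1'⟩ <;> rcases h2 with h2 | ⟨h2, h2'⟩
        · exact Or.inl (hr₀.trans _ _ _ h1 h2)
        · left; rw [← h2]; exact h1
        · left; rw [h1]; exact h2
        · right; exact ⟨h1.trans h2, h1'.trans h2'⟩ }
  refine ⟨r, hr, ⟨⟨ρ, j, hρA, ?_, ?_, ?_, ?_, ?_, ?_, ?_, ?_⟩⟩⟩
  · intro u hu
    by_cases h : ∃ a ∈ A, j a = u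
    · obtain ⟨a, ha, rfl⟩ := h
      rw [hρA a ha]
    · exact absurd hu (hρO u h).1
  · intro u v h; exact Or.inl h
  · intro u v h1 h2
    exact hr.irrefl u (hr.trans _ _ _ h1 h2)
  · intro u v h1 h2
    exact hr₀.irrefl u (hr₀.trans _ _ _ h1 h2)
  · intro u v huv
    by_contra h
    push Not at h
    exact huv (hr₀.trichotomous u v h.1 h.2)
  · intro u c
    by_cases h : ∃ a ∈ A, j a = u
    · obtain ⟨a, ha, rfl⟩ := h
      rw [hρA a ha]; exact hjcol a ha c
    · exact (hρO u h).2.1 c
  · intro u a ha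
    by_cases h : ∃ a ∈ A, j a = u
    · obtain ⟨b, hb, rfl⟩ := h
      rw [hρA b hb]; exact hjadj b hb a ha
    · exact (hρO u h).2.2 a ha
  · intro v hv X hX t ht
    have hcard : (X ∪ A.image j).card ≤ N := by
      have h1 := Finset.card_union_le X (A.image j)
      have h2 := Finset.card_image_le (s := A) (f := j)
      omega
    obtain ⟨u, hu1, hu2, hu3, hu4⟩ := hE (X ∪ A.image j) hcard
      (fun x => (x ∈ X ∧ t x) ∨ (x ∉ X ∧ ∃ a ∈ A, j a = x ∧ G₀.Adj v a))
      (fun c => P₀ c v) v.val v.2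
    simp only [Finset.mem_union, Finset.mem_image, not_or, not_exists, not_and] at hu1
    have hout : ¬ ∃ a ∈ A, j a = u := by
      rintro ⟨a, ha, h⟩; exact hu1.2 a ha h
    have hg : good u v := by
      refine ⟨hv, hu4, ?_⟩
      intro a ha
      rw [hu3 (j a) (Finset.mem_union_right _ (Finset.mem_image_of_mem j ha))]
      by_cases hx : j a ∈ X
      · simp only [hx, true_and, not_true_eq_false, false_and, or_false]
        exact ht a ha hx
      · simp only [hx, false_and, not_false_eq_true, true_and, false_or]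
        constructor
        · rintro ⟨b, hb, hba, h⟩
          rw [← hjinj b hb a ha hba]; exact h
        · intro h; exact ⟨a, ha, rfl, h⟩
    refine ⟨u, hu1.1, hρR u v hout hu2 hg, ?_⟩
    intro x hx
    rw [hu3 x (Finset.mem_union_left _ hx)]
    simp [hx]

end Pool.Agent.Helper704_OI
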