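import Mathlib

/-!
Formulas over coloured ordered graphs, their semantics, order-invariance and the labelled
counting measure. These definitions are used in the statements of the hand-ins of `helper704`
on `MP_1bef6e_lc`.
-/

namespace Pool.Agent.Helper704_OI

open Filter Topology

/-- First-order formulas, with counting quantifiers, over the signature that has equality, the
edge relation, one unary predicate for every colour `c : C`, and the order `<`. The variables
are `x_0, x_1, …`; `exGe k i φ` says: there are at least `k` values of `x_i` with `φ`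
(so `exGe 1 i φ` is the usual existential quantifier). -/
inductive Fml (C : Type) : Type
  | eq (i j : ℕ) : Fml C
  | adj (i j : ℕ) : Fml C
  | col (c : C) (i : ℕ) : Fml C
  | lt (i j : ℕ) : Fml C
  | neg (φ : Fml C) : Fml C
  | and (φ ψ : Fml C) : Fml C
  | exGe (k i : ℕ) (φ : Fml C) : Fml C

variable {C V : Type}

/-- Truth of a formula in the graph `G` with colour predicates `P c` and order relation `r`,
under the assignment `s`. -/
def Sat (G : SimpleGraph V) (P : C → V → Prop) (r : V → V → Prop) : Fml C → (ℕ → V) → Prop
  | .eq i j, s => s i = s j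
  | .adj i j, s => G.Adj (s i) (s j)
  | .col c i, s => P c (s i)
  | .lt i j, s => r (s i) (s j)
  | .neg φ, s => ¬ Sat G P r φ s
  | .and φ ψ, s => Sat G P r φ s ∧ Sat G P r ψ s
  | .exGe k i φ, s => ∃ A : Finset V, A.card = k ∧ ∀ a ∈ A, Sat G P r φ (Function.update s i a)

/-- The free variables of a formula. -/
def fv : Fml C → Finset ℕ
  | .eq i j => {i, j}
  | .adj i j => {i, j}
  | .col _ i => {i}
  | .lt i j => {i, j}
  | .neg φ => fv φ
  | .and φ ψ => fv φ ∪ fv ψ
  | .exGe _ i φ => (fv φ).erase i

/-- The order symbol `<` occurs in the formula. -/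
def HasLt : Fml C → Prop
  | .eq _ _ => False
  | .adj _ _ => False
  | .col _ _ => False
  | .lt _ _ => True
  | .neg φ => HasLt φ
  | .and φ ψ => HasLt φ ∨ HasLt ψ
  | .exGe _ _ φ => HasLt φ

/-- The set of subformulas of a formula (the formula itself included). -/
def Subf : Fml C → Set (Fml C)
  | .eq i j => {.eq i j}
  | .adj i j => {.adj i j}
  | .col c i => {.col c i}
  | .lt i j => {.lt i j}
  | .neg φ => insert (.neg φ) (Subf φ)
  | .and φ ψ => insert (.and φ ψ) (Subf φ ∪ Subf ψ)
  | .exGe k i φ => insert (.exGe k i φ) (Subf φ)

/-- Every subformula in which `<` occurs has at most two free variables. -/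
def TwoVarLt (φ : Fml C) : Prop :=
  ∀ ψ ∈ Subf φ, HasLt ψ → (fv ψ).card ≤ 2

/-- Truth of a sentence: truth under all assignments (for a sentence and a nonempty vertex set
the assignment does not matter). -/
def Holds (G : SimpleGraph V) (P : C → V → Prop) (r : V → V → Prop) (φ : Fml C) : Prop :=
  ∀ s : ℕ → V, Sat G P r φ s

/-- Order-invariance: on every finite coloured graph, the truth value of `φ` is the same for
all strict linear orders of the vertex set. -/
def OrderInvariant (φ : Fml C) : Prop :=
  ∀ (n : ℕ) (G : SimpleGraph (Fin n)) (P : C → Fin n → Prop) (r r' : Fin n → Fin n → Prop),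
    IsStrictTotalOrder (Fin n) r → IsStrictTotalOrder (Fin n) r' →
      (Holds G P r φ ↔ Holds G P r' φ)

/-- The fraction of the labelled coloured graphs on `n` vertices that satisfy `φ`, where the
order is the natural order of `Fin n` (for an order-invariant `φ` every order gives the same
value). -/
noncomputable def mu (φ : Fml C) (n : ℕ) : ℝ :=
  (Nat.card {S : SimpleGraph (Fin n) × (C → Fin n → Prop) // Holds S.1 S.2 (· < ·) φ} : ℝ) /
    (Nat.card (SimpleGraph (Fin n) × (C → Fin n → Prop)) : ℝ)

end Pool.Agent.Helper704_OI
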