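import Pool.Agent.Helper704_OI.Defs

/-!
Back-and-forth arguments: order-free formulas on graphs with extension properties, and formulas
whose order-subformulas have at most two free variables on suitably ordered graphs.
-/

namespace Pool.Agent.Helper704_OI

open Function

variable {C V W : Type}

/-- quantifier rank -/
def rk : Fml C → ℕ
  | .eq _ _ => 0
  | .adj _ _ => 0
  | .col _ _ => 0
  | .lt _ _ => 0
  | .neg φ => rk φ
  | .and φ ψ => max (rk φ) (rk ψ)
  | .exGe _ _ φ => rk φ + 1

/-- the largest counting threshold -/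
def mk : Fml C → ℕ
  | .eq _ _ => 0
  | .adj _ _ => 0
  | .col _ _ => 0
  | .lt _ _ => 0
  | .neg φ => mk φ
  | .and φ ψ => max (mk φ) (mk ψ)
  | .exGe k _ φ => max k (mk φ)

/-- a size bound for the number of free variables -/
def sz : Fml C → ℕ
  | .eq _ _ => 2
  | .adj _ _ => 2
  | .col _ _ => 2
  | .lt _ _ => 2
  | .neg φ => sz φ
  | .and φ ψ => sz φ + sz ψ
  | .exGe _ _ φ => sz φ

theorem fv_card_le (φ : Fml C) : (fv φ).card ≤ sz φ := by
  induction φ with
  | eq i j => exact Finset.card_le_two
  | adj i j => exact Finset.card_le_two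
  | col c i => simp [fv, sz]
  | lt i j => exact Finset.card_le_two
  | neg φ ih => exact ih
  | and φ ψ ih1 ih2 => exact (Finset.card_union_le _ _).trans (Nat.add_le_add ih1 ih2)
  | exGe k i φ ih => exact (Finset.card_erase_le).trans ih

theorem sat_congr (G : SimpleGraph V) (P : C → V → Prop) (r : V → V → Prop) (φ : Fml C) :
    ∀ s t : ℕ → V, (∀ i ∈ fv φ, s i = t i) → (Sat G P r φ s ↔ Sat G P r φ t) := by
  induction φ with
  | eq i j =>
    intro s t h
    have h1 := h i (by simp [fv])
    have h2 := h j (by simp [fv])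
    simp [Sat, h1, h2]
  | adj i j =>
    intro s t h
    have h1 := h i (by simp [fv])
    have h2 := h j (by simp [fv])
    simp [Sat, h1, h2]
  | col c i =>
    intro s t h
    have h1 := h i (by simp [fv])
    simp [Sat, h1]
  | lt i j =>
    intro s t h
    have h1 := h i (by simp [fv])
    have h2 := h j (by simp [fv])
    simp [Sat, h1, h2]
  | neg φ ih =>
    intro s t h
    simp only [Sat]
    rw [ih s t h]
  | and φ ψ ih1 ih2 =>
    intro s t h
    simp only [Sat]
    rw [ih1 s t (fun i hi => h i (by simp [fv, hi])), ih2 s t (fun i hi => h i (by simp [fv, hi]))]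
  | exGe k i φ ih =>
    intro s t h
    simp only [Sat]
    have key : ∀ a : V, (Sat G P r φ (update s i a) ↔ Sat G P r φ (update t i a)) := by
      intro a
      apply ih
      intro l hl
      by_cases hli : l = i
      · subst hli; simp
      · simp [update_of_ne hli]
        exact h l (by simp [fv, hli, hl])
    simp only [key]

/-- Transfer of `there are at least k'`. -/
theorem count_transfer {p : V → Prop} {q : W → Prop} {k k' : ℕ} (hk : k' ≤ k)
    (D : V → Prop) (g : V → W) (hg : ∀ a b, D a → D b → g a = g b → a = b)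
    (h1 : ∀ a, D a → p a → q (g a))
    (h2 : ∀ a, ¬ D a → p a → ∃ f : Fin k → W, Injective f ∧ ∀ u, q (f u))
    (h : ∃ A : Finset V, A.card = k' ∧ ∀ a ∈ A, p a) :
    ∃ B : Finset W, B.card = k' ∧ ∀ b ∈ B, q b := by
  classical
  obtain ⟨A, hA, hp⟩ := h
  by_cases hD : ∀ a ∈ A, D a
  · refine ⟨A.image g, ?_, ?_⟩
    · rw [Finset.card_image_of_injOn, hA]
      intro a ha b hb hab
      exact hg a b (hD a (by simpa using ha)) (hD b (by simpa using hb)) hab
    · intro b hb
      obtain ⟨a, ha, rfl⟩ := Finset.mem_image.1 hb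
      exact h1 a (hD a ha) (hp a ha)
  · push Not at hD
    obtain ⟨a, ha, hDa⟩ := hD
    obtain ⟨f, hf, hq⟩ := h2 a hDa (hp a ha)
    have : k' ≤ (Finset.univ.image f).card := by
      rw [Finset.card_image_of_injective _ hf]; simpa using hk
    obtain ⟨B, hB, hBc⟩ := Finset.exists_subset_card_eq this
    refine ⟨B, hBc, ?_⟩
    intro b hb
    obtain ⟨u, -, rfl⟩ := Finset.mem_image.1 (hB hb)
    exact hq u

/-- extension property: over any set of at most `N` vertices every type is realised at least
`k` times -/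
def Ext (G : SimpleGraph V) (P : C → V → Prop) (N k : ℕ) : Prop :=
  ∀ (X : Finset V), X.card ≤ N → ∀ (t : V → Prop) (c : C → Prop),
    ∃ f : Fin k → V, Injective f ∧ ∀ u, f u ∉ X ∧ (∀ x ∈ X, (G.Adj (f u) x ↔ t x)) ∧
      ∀ c', (P c' (f u) ↔ c c')

/-- one direction of the quantifier step for order-free formulas -/
theorem step_free {G : SimpleGraph V} {P : C → V → Prop} {r : V → V → Prop}
    {G' : SimpleGraph W} {P' : C → W → Prop} {r' : W → W → Prop} {N k k' : ℕ}
    (hE : Ext G' P' N k) (hk : k' ≤ k) (φ : Fml C) (x : ℕ) (hN : sz φ ≤ N)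
    (IH : ∀ (α : ℕ → V) (β : ℕ → W),
      (∀ i ∈ fv φ, ∀ j ∈ fv φ, (α i = α j ↔ β i = β j) ∧ (G.Adj (α i) (α j) ↔ G'.Adj (β i) (β j))) →
      (∀ i ∈ fv φ, ∀ c, (P c (α i) ↔ P' c (β i))) → (Sat G P r φ α ↔ Sat G' P' r' φ β))
    (α : ℕ → V) (β : ℕ → W)
    (h1 : ∀ i ∈ (fv φ).erase x, ∀ j ∈ (fv φ).erase x,
      (α i = α j ↔ β i = β j) ∧ (G.Adj (α i) (α j) ↔ G'.Adj (β i) (β j)))
    (h2 : ∀ i ∈ (fv φ).erase x, ∀ c, (P c (α i) ↔ P' c (β i)))
    (h : ∃ A : Finset V, A.card = k' ∧ ∀ a ∈ A, Sat G P r φ (update α x a)) :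
    ∃ B : Finset W, B.card = k' ∧ ∀ b ∈ B, Sat G' P' r' φ (update β x b) := by
  classical
  set Y := (fv φ).erase x with hY
  -- general matching of one more element
  have key : ∀ (a : V) (b : W), (∀ y ∈ Y, (a = α y ↔ b = β y) ∧ (G.Adj a (α y) ↔ G'.Adj b (β y))) →
      (∀ c, (P c a ↔ P' c b)) →
      (Sat G P r φ (update α x a) ↔ Sat G' P' r' φ (update β x b)) := by
    intro a b hab hc
    apply IH
    · intro i hi j hj
      by_cases hix : i = x
      · by_cases hjx : j = x
        · subst hix; subst hjx; simp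
        · have hjY : j ∈ Y := by rw [hY]; exact Finset.mem_erase.2 ⟨hjx, hj⟩
          subst hix
          rw [update_self, update_self, update_of_ne hjx, update_of_ne hjx]
          exact hab j hjY
      · have hiY : i ∈ Y := by rw [hY]; exact Finset.mem_erase.2 ⟨hix, hi⟩
        by_cases hjx : j = x
        · subst hjx
          rw [update_self, update_self, update_of_ne hix, update_of_ne hix]
          have := hab i hiY
          refine ⟨?_, ?_⟩
          · rw [eq_comm, this.1, eq_comm]
          · rw [G.adj_comm, this.2, G'.adj_comm]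
        · have hjY : j ∈ Y := by rw [hY]; exact Finset.mem_erase.2 ⟨hjx, hj⟩
          rw [update_of_ne hix, update_of_ne hjx, update_of_ne hix, update_of_ne hjx]
          exact h1 i hiY j hjY
    · intro i hi c
      by_cases hix : i = x
      · subst hix
        rw [update_self, update_self]; exact hc c
      · rw [update_of_ne hix, update_of_ne hix]
        exact h2 i (by rw [hY]; exact Finset.mem_erase.2 ⟨hix, hi⟩) c
  by_cases hWne : Nonempty W
  swap
  · -- no element in W : then Ext gives k = 0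
    have hk0 : k = 0 := by
      by_contra hk0
      obtain ⟨f, -, -⟩ := hE ∅ (by simp) (fun _ => True) (fun _ => True)
      exact hWne ⟨f ⟨0, Nat.pos_of_ne_zero hk0⟩⟩
    refine ⟨∅, by simp; omega, by simp⟩
  let g : V → W := fun a => if h : ∃ y ∈ Y, α y = a then β h.choose else Classical.choice hWne
  have hgspec : ∀ y ∈ Y, g (α y) = β y := by
    intro y hy
    have hex : ∃ z ∈ Y, α z = α y := ⟨y, hy, rfl⟩
    have : g (α y) = β hex.choose := by
      simp only [g]
      rw [dif_pos hex]
    rw [this]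
    have hh := hex.choose_spec
    exact ((h1 _ hh.1 y hy).1).1 hh.2
  refine count_transfer hk (fun a => ∃ y ∈ Y, α y = a) g ?_ ?_ ?_ h
  · rintro a b ⟨y, hy, rfl⟩ ⟨z, hz, rfl⟩ hab
    rw [hgspec y hy, hgspec z hz] at hab
    exact ((h1 y hy z hz).1).2 hab
  · rintro a ⟨y, hy, rfl⟩ hs
    rw [hgspec y hy]
    refine (key (α y) (β y) ?_ ?_).1 hs
    · intro z hz; exact h1 y hy z hz
    · exact h2 y hy
  · intro a ha hs
    obtain ⟨f, hf, hfs⟩ := hE (Y.image β)
      ((Finset.card_image_le).trans (((Finset.card_erase_le).trans (fv_card_le φ)).trans hN))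
      (fun w => ∃ y ∈ Y, β y = w ∧ G.Adj a (α y)) (fun c => P c a)
    refine ⟨f, hf, ?_⟩
    intro u
    obtain ⟨hu1, hu2, hu3⟩ := hfs u
    refine (key a (f u) ?_ (fun c => (hu3 c).symm)).1 hs
    intro y hy
    constructor
    · constructor
      · intro h; exact absurd ⟨y, hy, h.symm⟩ ha
      · intro h; exact absurd (by rw [h]; exact Finset.mem_image_of_mem β hy) hu1
    · rw [hu2 (β y) (Finset.mem_image_of_mem β hy)]
      constructor
      · intro h; exact ⟨y, hy, rfl, h⟩
      · rintro ⟨z, hz, hzy, hadj⟩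
        have := ((h1 z hz y hy).1).2 hzy
        rw [← this]; exact hadj

/-- Order-free formulas depend only on the atomic type of the assignment. -/
theorem sat_free {G : SimpleGraph V} {P : C → V → Prop} {r : V → V → Prop}
    {G' : SimpleGraph W} {P' : C → W → Prop} {r' : W → W → Prop} {N k : ℕ}
    (hE : Ext G P N k) (hE' : Ext G' P' N k) (φ : Fml C) :
    sz φ ≤ N → mk φ ≤ k → ¬ HasLt φ → ∀ (α : ℕ → V) (β : ℕ → W),
      (∀ i ∈ fv φ, ∀ j ∈ fv φ, (α i = α j ↔ β i = β j) ∧ (G.Adj (α i) (α j) ↔ G'.Adj (β i) (β j))) →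
      (∀ i ∈ fv φ, ∀ c, (P c (α i) ↔ P' c (β i))) → (Sat G P r φ α ↔ Sat G' P' r' φ β) := by
  induction φ with
  | eq i j =>
    intro _ _ _ α β h1 h2
    exact (h1 i (by simp [fv]) j (by simp [fv])).1
  | adj i j =>
    intro _ _ _ α β h1 h2
    exact (h1 i (by simp [fv]) j (by simp [fv])).2
  | col c i =>
    intro _ _ _ α β h1 h2
    exact h2 i (by simp [fv]) c
  | lt i j =>
    intro _ _ h
    exact absurd trivial h
  | neg φ ih =>
    intro hN hk hL α β h1 h2
    exact not_congr (ih hN hk hL α β h1 h2)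
  | and φ ψ ih1 ih2 =>
    intro hN hk hL α β h1 h2
    simp only [sz] at hN
    simp only [mk] at hk
    simp only [HasLt, not_or] at hL
    refine and_congr (ih1 (by omega) (by omega) hL.1 α β ?_ ?_)
      (ih2 (by omega) (by omega) hL.2 α β ?_ ?_)
    · intro i hi j hj; exact h1 i (by simp [fv, hi]) j (by simp [fv, hj])
    · intro i hi; exact h2 i (by simp [fv, hi])
    · intro i hi j hj; exact h1 i (by simp [fv, hi]) j (by simp [fv, hj])
    · intro i hi; exact h2 i (by simp [fv, hi])
  | exGe k' x φ ih =>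
    intro hN hk hL α β h1 h2
    simp only [sz] at hN
    simp only [mk] at hk
    simp only [HasLt] at hL
    have IH := ih hN (by omega) hL
    constructor
    · intro h
      exact step_free hE' (by omega) φ x hN IH α β h1 h2 h
    · intro h
      refine step_free (P := P') hE (by omega) φ x hN (fun β α h1 h2 => (IH α β ?_ ?_).symm) β α ?_ ?_ h
      · intro i hi j hj
        exact ⟨(h1 i hi j hj).1.symm, (h1 i hi j hj).2.symm⟩
      · intro i hi c; exact (h2 i hi c).symm
      · intro i hi j hj
        exact ⟨(h1 i hi j hj).1.symm, (h1 i hi j hj).2.symm⟩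
      · intro i hi c; exact (h2 i hi c).symm

end Pool.Agent.Helper704_OI
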