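import Pool.Agent.Helper704_OI.Defs

/-!
Definitions for the fragment with unnested universal quantifiers.
-/

namespace Pool.Agent.Helper704_OI

variable {C : Type}

/-- Every quantified subformula is order-free: Boolean combinations of atomic formulas and of
arbitrary order-free formulas. -/
def OFQ : Fml C → Prop
  | .eq _ _ => True
  | .adj _ _ => True
  | .col _ _ => True
  | .lt _ _ => True
  | .neg φ => OFQ φ
  | .and φ ψ => OFQ φ ∧ OFQ ψ
  | .exGe _ _ φ => ¬ HasLt φ

/-- Existential formulas: the closure of `OFQ` under conjunction, disjunction and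
existential (counting) quantifiers. -/
inductive Pos1 : Fml C → Prop
  | base (φ : Fml C) : OFQ φ → Pos1 φ
  | and (φ ψ : Fml C) : Pos1 φ → Pos1 ψ → Pos1 (.and φ ψ)
  | or (φ ψ : Fml C) : Pos1 φ → Pos1 ψ → Pos1 (.neg (.and (.neg φ) (.neg ψ)))
  | ex (k i : ℕ) (φ : Fml C) : Pos1 φ → Pos1 (.exGe k i φ)

/-- Formulas with unnested universal quantifiers: the closure of the existential formulas
and of the formulas `∀ x_i φ`, `φ` existential, under conjunction, disjunction and existential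
(counting) quantifiers. Here `∀ x_i φ` is written `¬ ∃ x_i ¬ φ`. -/
inductive Pos2 : Fml C → Prop
  | base (φ : Fml C) : Pos1 φ → Pos2 φ
  | all (i : ℕ) (φ : Fml C) : Pos1 φ → Pos2 (.neg (.exGe 1 i (.neg φ)))
  | and (φ ψ : Fml C) : Pos2 φ → Pos2 ψ → Pos2 (.and φ ψ)
  | or (φ ψ : Fml C) : Pos2 φ → Pos2 ψ → Pos2 (.neg (.and (.neg φ) (.neg ψ)))
  | ex (k i : ℕ) (φ : Fml C) : Pos2 φ → Pos2 (.exGe k i φ)

/-- Boolean combinations of sentences in `Pos2`. -/
inductive BoolPos2 : Fml C → Prop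
  | base (φ : Fml C) : Pos2 φ → fv φ = ∅ → BoolPos2 φ
  | neg (φ : Fml C) : BoolPos2 φ → BoolPos2 (.neg φ)
  | and (φ ψ : Fml C) : BoolPos2 φ → BoolPos2 ψ → BoolPos2 (.and φ ψ)

end Pool.Agent.Helper704_OI
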