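import Pool.Agent.Helper704_OI.EF

/-!
The skeleton (initial and final blocks) and the back-and-forth lemma for formulas in which every
subformula with `<` has at most two free variables.
-/

namespace Pool.Agent.Helper704_OI

open Function

variable {C V W : Type}

/-- The hierarchical finite graph placed at the two ends of the order. -/
structure Skel (C : Type) (k R : ℕ) : Type 1 where
  S : Type
  fin : Finite S
  adj : S → S → Prop
  symm : ∀ s t, adj s t → adj t s
  irr : ∀ s, ¬ adj s s
  col : S → C → Prop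
  lev : S → ℕ
  lev_pos : ∀ s, 1 ≤ lev s
  lev_le : ∀ s, lev s ≤ R
  side : S → Bool
  T : S → Prop
  P2 : ∀ i, 1 ≤ i → i ≤ R → ∀ (b : Bool) (c : C → Prop) (A : S → Prop) (ε : Prop),
    ∃ f : Fin k → S, Injective f ∧ ∀ u, lev (f u) = i ∧ side (f u) = b ∧
      (∀ c', col (f u) c' ↔ c c') ∧ (∀ s, lev s + 2 ≤ i → (adj (f u) s ↔ A s)) ∧ (T (f u) ↔ ε)
  P3 : ∀ s t, lev s = lev t + 1 → (adj s t ↔ T t)

theorem exists_skel (C : Type) [Finite C] (k R : ℕ) : Nonempty (Skel C k R) := by
  induction R with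
  | zero =>
    exact ⟨{ S := Empty, fin := inferInstance, adj := fun s => s.elim, symm := fun s => s.elim,
             irr := fun s => s.elim, col := fun s => s.elim, lev := fun s => s.elim,
             lev_pos := fun s => s.elim, lev_le := fun s => s.elim, side := fun s => s.elim,
             T := fun s => s.elim, P2 := fun i h1 h2 => by omega, P3 := fun s => s.elim }⟩
  | succ R ih =>
    obtain ⟨K⟩ := ih
    haveI := K.fin
    let Nw : Type := Bool × (C → Prop) × (K.S → Prop) × Prop × Fin k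
    let ad : Nw → K.S → Prop := fun n s =>
      (K.lev s = R ∧ K.T s) ∨ (K.lev s ≠ R ∧ n.2.2.1 s)
    refine ⟨{ S := K.S ⊕ Nw, fin := inferInstance,
              adj := fun s t => match s, t with
                | .inl s, .inl t => K.adj s t
                | .inl s, .inr n => ad n s
                | .inr n, .inl s => ad n s
                | .inr _, .inr _ => False,
              symm := ?_, irr := ?_,
              col := fun s => match s with
                | .inl s => K.col s
                | .inr n => n.2.1,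
              lev := fun s => match s with
                | .inl s => K.lev s
                | .inr _ => R + 1,
              lev_pos := ?_, lev_le := ?_,
              side := fun s => match s with
                | .inl s => K.side s
                | .inr n => n.1,
              T := fun s => match s with
                | .inl s => K.T s
                | .inr n => n.2.2.2.1,
              P2 := ?_, P3 := ?_ }⟩
    · rintro (s | s) (t | t) h
      · exact K.symm _ _ h
      · exact h
      · exact h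
      · exact h
    · rintro (s | s) h
      · exact K.irr _ h
      · exact h
    · rintro (s | s)
      · exact K.lev_pos s
      · show 1 ≤ R + 1
        omega
    · rintro (s | s)
      · exact (K.lev_le s).trans (Nat.le_succ _)
      · exact le_refl _
    · intro i h1 h2 b c A ε
      rcases Nat.lt_or_ge R i with hi | hi
      · have hi' : i = R + 1 := by omega
        subst hi'
        refine ⟨fun u => .inr (b, c, fun s => A (.inl s), ε, u), ?_, ?_⟩
        · intro u v huv
          have h' := Sum.inr.inj huv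
          exact congrArg (fun n : Nw => n.2.2.2.2) h'
        · intro u
          refine ⟨rfl, rfl, fun _ => Iff.rfl, ?_, Iff.rfl⟩
          rintro (s | s) hs
          · have hs' : K.lev s + 2 ≤ R + 1 := hs
            have hne : K.lev s ≠ R := by omega
            show ((K.lev s = R ∧ K.T s) ∨ (K.lev s ≠ R ∧ A (.inl s))) ↔ A (.inl s)
            simp [hne]
          · exact absurd (show R + 1 + 2 ≤ R + 1 from hs) (by omega)
      · obtain ⟨f, hf, hfu⟩ := K.P2 i h1 hi b c (fun s => A (.inl s)) ε
        refine ⟨fun u => .inl (f u), ?_, ?_⟩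
        · intro u v huv
          exact hf (Sum.inl.inj huv)
        · intro u
          obtain ⟨h1, h2, h3, h4, h5⟩ := hfu u
          refine ⟨h1, h2, h3, ?_, h5⟩
          rintro (s | s) hs
          · exact h4 s hs
          · exact absurd (show R + 1 + 2 ≤ i from hs) (by omega)
    · rintro (s | s) (t | t) h
      · exact K.P3 s t h
      · have h' : K.lev s = R + 1 + 1 := h
        have := K.lev_le s
        omega
      · have h' : R + 1 = K.lev t + 1 := h
        have h'' : K.lev t = R := by omega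
        show ((K.lev t = R ∧ K.T t) ∨ (K.lev t ≠ R ∧ s.2.2.1 t)) ↔ K.T t
        simp [h'']
      · have h' : R + 1 = R + 1 + 1 := h
        omega

/-- the order key of a skeleton element -/
def Skel.zn {k R : ℕ} (K : Skel C k R) (s : K.S) : ℕ :=
  if K.side s then K.lev s else 2 * R + 4 - K.lev s

/-- A graph ordered so that it is saturated around an embedded skeleton. -/
structure Setup {k R : ℕ} (K : Skel C k R) (idx : K.S → ℕ)
    (G : SimpleGraph V) (P : C → V → Prop) (r : V → V → Prop) where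
  e : K.S → V
  inj : Injective e
  adj : ∀ s t, (G.Adj (e s) (e t) ↔ K.adj s t)
  col : ∀ s c, (P c (e s) ↔ K.col s c)
  asym : ∀ a b, r a b → ¬ r b a
  tot : ∀ a b, a ≠ b → r a b ∨ r b a
  ordS : ∀ s t, (r (e s) (e t) ↔ (K.zn s < K.zn t ∨ (K.zn s = K.zn t ∧ idx s < idx t)))
  F1 : ∀ s a, (∀ t, e t = a → K.lev s < K.lev t) →
    (K.side s = true → r (e s) a) ∧ (K.side s = false → r a (e s))
  F : ∀ j, 1 ≤ j → j ≤ R → ∀ (a : V) (δ : Bool), (∀ s, e s = a → K.lev s ≤ j → K.side s = δ) →
    ∀ (c : C → Prop) (A : K.S → Prop) (ε : Prop), (∀ s, e s = a → K.lev s + 2 ≤ j → (ε ↔ A s)) →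
    ∃ f : Fin k → V, Injective f ∧ ∀ u, (∀ t, e t = f u → j ≤ K.lev t) ∧ f u ≠ a ∧
      (∀ c', P c' (f u) ↔ c c') ∧ (∀ s, K.lev s + 2 ≤ j → (G.Adj (f u) (e s) ↔ A s)) ∧
      (G.Adj a (f u) ↔ ε) ∧ (δ = true → r a (f u)) ∧ (δ = false → r (f u) a)

/-- matching of level `j` -/
def Mt {k R : ℕ} {K : Skel C k R} {idx : K.S → ℕ}
    {G : SimpleGraph V} {P : C → V → Prop} {r : V → V → Prop}
    {G' : SimpleGraph W} {P' : C → W → Prop} {r' : W → W → Prop}
    (U : Setup K idx G P r) (U' : Setup K idx G' P' r') (j : ℕ) (a : V) (b : W) : Prop :=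
  (∃ s, U.e s = a ∧ U'.e s = b) ∨
    ((∀ t, U.e t = a → j < K.lev t) ∧ (∀ t, U'.e t = b → j < K.lev t) ∧ (∀ c, P c a ↔ P' c b) ∧
      ∀ s, K.lev s + 1 ≤ j → (G.Adj a (U.e s) ↔ G'.Adj b (U'.e s)))

section
variable {k R : ℕ} {K : Skel C k R} {idx : K.S → ℕ}
    {G : SimpleGraph V} {P : C → V → Prop} {r : V → V → Prop}
    {G' : SimpleGraph W} {P' : C → W → Prop} {r' : W → W → Prop}

theorem Mt.symm {U : Setup K idx G P r} {U' : Setup K idx G' P' r'} {j : ℕ} {a : V} {b : W}
    (h : Mt U U' j a b) : Mt U' U j b a := by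
  rcases h with ⟨s, h1, h2⟩ | ⟨h1, h2, h3, h4⟩
  · exact Or.inl ⟨s, h2, h1⟩
  · exact Or.inr ⟨h2, h1, fun c => (h3 c).symm, fun s hs => (h4 s hs).symm⟩

theorem Mt.mono {U : Setup K idx G P r} {U' : Setup K idx G' P' r'} {j j' : ℕ} {a : V} {b : W}
    (h : Mt U U' j a b) (hj : j' ≤ j) : Mt U U' j' a b := by
  rcases h with ⟨s, h1, h2⟩ | ⟨h1, h2, h3, h4⟩
  · exact Or.inl ⟨s, h1, h2⟩
  · exact Or.inr ⟨fun t ht => lt_of_le_of_lt hj (h1 t ht), fun t ht => lt_of_le_of_lt hj (h2 t ht),
      h3, fun s hs => h4 s (hs.trans hj)⟩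

theorem Mt.col {U : Setup K idx G P r} {U' : Setup K idx G' P' r'} {j : ℕ} {a : V} {b : W}
    (h : Mt U U' j a b) (c : C) : P c a ↔ P' c b := by
  rcases h with ⟨s, h1, h2⟩ | ⟨h1, h2, h3, h4⟩
  · rw [← h1, ← h2, U.col, U'.col]
  · exact h3 c

/-- atomic relations of a pair -/
def At (G : SimpleGraph V) (r : V → V → Prop) (G' : SimpleGraph W) (r' : W → W → Prop)
    (a a' : V) (b b' : W) : Prop :=
  (a = a' ↔ b = b') ∧ (G.Adj a a' ↔ G'.Adj b b') ∧ (r a a' ↔ r' b b') ∧ (r a' a ↔ r' b' b)

theorem At.swap {a a' : V} {b b' : W} (h : At G r G' r' a a' b b') : At G r G' r' a' a b' b := by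
  obtain ⟨h1, h2, h3, h4⟩ := h
  refine ⟨?_, ?_, h4, h3⟩
  · rw [eq_comm, h1, eq_comm]
  · rw [G.adj_comm, h2, G'.adj_comm]

theorem At.inv {a a' : V} {b b' : W} (h : At G r G' r' a a' b b') : At G' r' G r b b' a a' := by
  obtain ⟨h1, h2, h3, h4⟩ := h
  exact ⟨h1.symm, h2.symm, h3.symm, h4.symm⟩

theorem At.refl (U : Setup K idx G P r) (U' : Setup K idx G' P' r') (a : V) (b : W) :
    At G r G' r' a a b b := by
  refine ⟨by simp, by simp, ?_, ?_⟩
  · exact ⟨fun h => absurd h (U.asym a a h), fun h => absurd h (U'.asym b b h)⟩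
  · exact ⟨fun h => absurd h (U.asym a a h), fun h => absurd h (U'.asym b b h)⟩

/-- The basic extension step: given a matched pair `(a, b)` of level `j`, the elements of `V`
split into a set that is mapped injectively, and elements whose type is abundant in `W`. -/
theorem ext_pair (U : Setup K idx G P r) (U' : Setup K idx G' P' r') {j : ℕ} (hj1 : 1 ≤ j)
    (hjR : j ≤ R) {a : V} {b : W} (h : Mt U U' j a b) :
    ∃ (D : V → Prop) (g : V → W), (∀ x y, D x → D y → g x = g y → x = y) ∧
      (∀ x, D x → Mt U U' (j - 1) x (g x) ∧ At G r G' r' x a (g x) b) ∧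
      (∀ x, ¬ D x → ∃ f : Fin k → W, Injective f ∧ ∀ u, Mt U U' (j - 1) x (f u) ∧
        At G r G' r' x a (f u) b) := by
  classical
  have hord : ∀ s t, (r (U.e s) (U.e t) ↔ r' (U'.e s) (U'.e t)) := by
    intro s t; rw [U.ordS, U'.ordS]
  have hadj : ∀ s t, (G.Adj (U.e s) (U.e t) ↔ G'.Adj (U'.e s) (U'.e t)) := by
    intro s t; rw [U.adj, U'.adj]
  -- the abundant case, common part
  have abund : ∀ (x : V), x ≠ a → (∀ t, U.e t = x → j ≤ K.lev t) → ∀ δ : Bool,
      (∀ s, U'.e s = b → K.lev s ≤ j → K.side s = δ) →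
      (∀ s, U'.e s = b → K.lev s + 2 ≤ j → (G.Adj a x ↔ G.Adj x (U.e s))) →
      (δ = true → r a x) → (δ = false → r x a) →
      ∃ f : Fin k → W, Injective f ∧ ∀ u, Mt U U' (j - 1) x (f u) ∧ At G r G' r' x a (f u) b := by
    intro x hxa hx δ hδ hcomp hd1 hd2
    obtain ⟨f, hf, hfu⟩ := U'.F j hj1 hjR b δ hδ (fun c => P c x) (fun s => G.Adj x (U.e s))
      (G.Adj a x) hcomp
    refine ⟨f, hf, ?_⟩
    intro u
    obtain ⟨h1, h2, h3, h4, h5, h6, h7⟩ := hfu u
    refine ⟨Or.inr ⟨?_, ?_, ?_, ?_⟩, ?_⟩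
    · intro t ht; have := hx t ht; omega
    · intro t ht; have := h1 t ht; omega
    · intro c; exact (h3 c).symm
    · intro s hs; exact (h4 s (by omega)).symm
    · refine ⟨⟨fun h => absurd h hxa, fun h => absurd h h2⟩, ?_, ?_, ?_⟩
      · rw [G.adj_comm, G'.adj_comm]; exact h5.symm
      · cases δ with
        | true =>
          exact ⟨fun h => absurd h (U.asym _ _ (hd1 rfl)), fun h => absurd h (U'.asym _ _ (h6 rfl))⟩
        | false => exact ⟨fun _ => h7 rfl, fun _ => hd2 rfl⟩
      · cases δ with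
        | true => exact ⟨fun _ => h6 rfl, fun _ => hd1 rfl⟩
        | false =>
          exact ⟨fun h => absurd h (U.asym _ _ (hd2 rfl)), fun h => absurd h (U'.asym _ _ (h7 rfl))⟩
  rcases h with ⟨s₀, rfl, rfl⟩ | ⟨h1, h2, h3, h4⟩
  · -- same skeleton element
    refine ⟨fun x => ∃ s, U.e s = x, fun x => if h : ∃ s, U.e s = x then U'.e h.choose else U'.e s₀,
      ?_, ?_, ?_⟩
    · rintro x y ⟨s, rfl⟩ ⟨t, rfl⟩ hxy
      have hs : ∃ s', U.e s' = U.e s := ⟨s, rfl⟩
      have ht : ∃ s', U.e s' = U.e t := ⟨t, rfl⟩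
      simp only [dif_pos hs, dif_pos ht] at hxy
      have := U'.inj hxy
      rw [← hs.choose_spec, ← ht.choose_spec, this]
    · rintro x ⟨s, rfl⟩
      have hs : ∃ s', U.e s' = U.e s := ⟨s, rfl⟩
      have hs' : hs.choose = s := U.inj hs.choose_spec
      simp only [dif_pos hs, hs']
      refine ⟨Or.inl ⟨s, rfl, rfl⟩, ?_, hadj _ _, hord _ _, hord _ _⟩
      exact ⟨fun h => by rw [U.inj h], fun h => by rw [U'.inj h]⟩
    · intro x hx
      have hx' : ∀ t, U.e t ≠ x := fun t ht => hx ⟨t, ht⟩
      obtain ⟨hF1, hF2⟩ := U.F1 s₀ x (fun t ht => absurd ht (hx' t))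
      have hxa : x ≠ U.e s₀ := fun h => hx' s₀ h.symm
      by_cases hr : r (U.e s₀) x
      · refine abund x hxa (fun t ht => absurd ht (hx' t)) true ?_ ?_ (fun _ => hr)
          (fun h => by cases h)
        · intro s hs _
          have := U'.inj hs
          subst this
          by_contra hne
          exact U.asym _ _ hr (hF2 (by simpa using hne))
        · intro s hs _
          have := U'.inj hs
          subst this
          exact G.adj_comm _ _
      · have hr' : r x (U.e s₀) := (U.tot _ _ hxa).resolve_right hr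
        refine abund x hxa (fun t ht => absurd ht (hx' t)) false ?_ ?_ (fun h => by cases h)
          (fun _ => hr')
        · intro s hs _
          have := U'.inj hs
          subst this
          by_contra hne
          exact U.asym _ _ hr' (hF1 (by simpa using hne))
        · intro s hs _
          have := U'.inj hs
          subst this
          exact G.adj_comm _ _
  · -- both outside of the first `j` levels
    refine ⟨fun x => x = a ∨ ∃ s, U.e s = x ∧ K.lev s ≤ j - 1,
      fun x => if x = a then b else if h : ∃ s, U.e s = x then U'.e h.choose else b,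
      ?_, ?_, ?_⟩
    · have hna : ∀ s, K.lev s ≤ j - 1 → U.e s ≠ a := by
        intro s hs h; have := h1 s h; omega
      have hnb : ∀ s, K.lev s ≤ j - 1 → U'.e s ≠ b := by
        intro s hs h; have := h2 s h; omega
      rintro x y (rfl | ⟨s, rfl, hs⟩) (rfl | ⟨t, rfl, ht⟩) hxy
      · rfl
      · have hex : ∃ s', U.e s' = U.e t := ⟨t, rfl⟩
        have hs' : hex.choose = t := U.inj hex.choose_spec
        simp only [if_true, if_neg (hna t ht), dif_pos hex, hs'] at hxy
        exact absurd hxy.symm (hnb t ht)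
      · have hex : ∃ s', U.e s' = U.e s := ⟨s, rfl⟩
        have hs' : hex.choose = s := U.inj hex.choose_spec
        simp only [if_true, if_neg (hna s hs), dif_pos hex, hs'] at hxy
        exact absurd hxy (hnb s hs)
      · have hex : ∃ s', U.e s' = U.e s := ⟨s, rfl⟩
        have hs' : hex.choose = s := U.inj hex.choose_spec
        have hex2 : ∃ s', U.e s' = U.e t := ⟨t, rfl⟩
        have ht' : hex2.choose = t := U.inj hex2.choose_spec
        simp only [if_neg (hna s hs), if_neg (hna t ht), dif_pos hex, dif_pos hex2, hs', ht'] at hxy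
        rw [U'.inj hxy]
    · rintro x (rfl | ⟨s, rfl, hs⟩)
      · simp only [if_true]
        exact ⟨Mt.mono (Or.inr ⟨h1, h2, h3, h4⟩) (by omega), At.refl U U' _ _⟩
      · have hna : U.e s ≠ a := by intro h; have := h1 s h; omega
        have hnb : U'.e s ≠ b := by intro h; have := h2 s h; omega
        have hex : ∃ s', U.e s' = U.e s := ⟨s, rfl⟩
        have hs' : hex.choose = s := U.inj hex.choose_spec
        simp only [if_neg hna, dif_pos hex, hs']
        obtain ⟨hF1, hF2⟩ := U.F1 s a (fun t ht => by have := h1 t ht; omega)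
        obtain ⟨hF1', hF2'⟩ := U'.F1 s b (fun t ht => by have := h2 t ht; omega)
        refine ⟨Or.inl ⟨s, rfl, rfl⟩, ⟨fun h => absurd h hna, fun h => absurd h hnb⟩, ?_, ?_, ?_⟩
        · rw [G.adj_comm, G'.adj_comm]; exact h4 s (by omega)
        · cases hside : K.side s with
          | true => exact ⟨fun _ => hF1' hside, fun _ => hF1 hside⟩
          | false =>
            exact ⟨fun h => absurd h (U.asym _ _ (hF2 hside)),
              fun h => absurd h (U'.asym _ _ (hF2' hside))⟩
        · cases hside : K.side s with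
          | true =>
            exact ⟨fun h => absurd h (U.asym _ _ (hF1 hside)),
              fun h => absurd h (U'.asym _ _ (hF1' hside))⟩
          | false => exact ⟨fun _ => hF2' hside, fun _ => hF2 hside⟩
    · intro x hx
      push Not at hx
      obtain ⟨hxa, hxs⟩ := hx
      have hx' : ∀ t, U.e t = x → j ≤ K.lev t := by
        intro t ht; have := hxs t ht; omega
      have e1 : ∀ δ : Bool, ∀ s, U'.e s = b → K.lev s ≤ j → K.side s = δ := by
        intro δ s hs hl; have := h2 s hs; omega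
      have e2 : ∀ s, U'.e s = b → K.lev s + 2 ≤ j → (G.Adj a x ↔ G.Adj x (U.e s)) := by
        intro s hs hl; have := h2 s hs; omega
      rcases U.tot _ _ hxa with hr | hr
      · exact abund x hxa hx' false (e1 _) e2 (fun h => by cases h) (fun _ => hr)
      · exact abund x hxa hx' true (e1 _) e2 (fun _ => hr) (fun h => by cases h)

/-- The same without a given pair. -/
theorem ext_single [Nonempty V] [Nonempty W] (U : Setup K idx G P r) (U' : Setup K idx G' P' r')
    {j : ℕ} (hj1 : 1 ≤ j) (hjR : j ≤ R) :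
    ∃ (D : V → Prop) (g : V → W), (∀ x y, D x → D y → g x = g y → x = y) ∧
      (∀ x, D x → Mt U U' (j - 1) x (g x)) ∧
      (∀ x, ¬ D x → ∃ f : Fin k → W, Injective f ∧ ∀ u, Mt U U' (j - 1) x (f u)) := by
  classical
  obtain ⟨b⟩ := (inferInstance : Nonempty W)
  refine ⟨fun x => ∃ s, U.e s = x, fun x => if h : ∃ s, U.e s = x then U'.e h.choose else b,
    ?_, ?_, ?_⟩
  · rintro x y ⟨s, rfl⟩ ⟨t, rfl⟩ hxy
    have hs : ∃ s', U.e s' = U.e s := ⟨s, rfl⟩
    have ht : ∃ s', U.e s' = U.e t := ⟨t, rfl⟩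
    simp only [dif_pos hs, dif_pos ht] at hxy
    have := U'.inj hxy
    rw [← hs.choose_spec, ← ht.choose_spec, this]
  · rintro x ⟨s, rfl⟩
    have hs : ∃ s', U.e s' = U.e s := ⟨s, rfl⟩
    have hs' : hs.choose = s := U.inj hs.choose_spec
    simp only [dif_pos hs, hs']
    exact Or.inl ⟨s, rfl, rfl⟩
  · intro x hx
    have hx' : ∀ t, U.e t ≠ x := fun t ht => hx ⟨t, ht⟩
    obtain ⟨δ, hδ⟩ : ∃ δ : Bool, ∀ s, U'.e s = b → K.lev s ≤ j → K.side s = δ := by
      by_cases h : ∃ s, U'.e s = b
      · obtain ⟨s, hs⟩ := h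
        refine ⟨K.side s, ?_⟩
        intro t ht _
        rw [U'.inj (ht.trans hs.symm)]
      · exact ⟨true, fun s hs => absurd ⟨s, hs⟩ h⟩
    obtain ⟨f, hf, hfu⟩ := U'.F j hj1 hjR b δ hδ (fun c => P c x) (fun s => G.Adj x (U.e s))
      (∃ s, U'.e s = b ∧ G.Adj x (U.e s)) (by
        intro s hs _
        constructor
        · rintro ⟨t, ht, h⟩
          rw [U'.inj (hs.trans ht.symm)]; exact h
        · intro h; exact ⟨s, hs, h⟩)
    refine ⟨f, hf, ?_⟩
    intro u
    obtain ⟨h1, h2, h3, h4, h5, h6, h7⟩ := hfu u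
    refine Or.inr ⟨?_, ?_, ?_, ?_⟩
    · intro t ht; exact absurd ht (hx' t)
    · intro t ht; have := h1 t ht; omega
    · intro c; exact (h3 c).symm
    · intro s hs; exact (h4 s (by omega)).symm

/-- the quantifier step -/
theorem step_two [Nonempty V] [Nonempty W]
    (U : Setup K idx G P r) (U' : Setup K idx G' P' r') {j k' : ℕ} (hj1 : 1 ≤ j) (hjR : j ≤ R)
    (hk : k' ≤ k) (φ : Fml C) (x : ℕ) (hcard : (fv φ).card ≤ 2)
    (IH : ∀ (α : ℕ → V) (β : ℕ → W), (∀ i ∈ fv φ, Mt U U' (j - 1) (α i) (β i)) →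
      (∀ i ∈ fv φ, ∀ l ∈ fv φ, At G r G' r' (α i) (α l) (β i) (β l)) →
      (Sat G P r φ α ↔ Sat G' P' r' φ β))
    (α : ℕ → V) (β : ℕ → W)
    (h1 : ∀ i ∈ (fv φ).erase x, Mt U U' j (α i) (β i))
    (h2 : ∀ i ∈ (fv φ).erase x, ∀ l ∈ (fv φ).erase x, At G r G' r' (α i) (α l) (β i) (β l))
    (h : ∃ A : Finset V, A.card = k' ∧ ∀ a ∈ A, Sat G P r φ (update α x a)) :
    ∃ B : Finset W, B.card = k' ∧ ∀ b ∈ B, Sat G' P' r' φ (update β x b) := by
  classical
  set Y := (fv φ).erase x with hY
  have key : ∀ (a : V) (b : W), (x ∈ fv φ → Mt U U' (j - 1) a b) →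
      (x ∈ fv φ → ∀ y ∈ Y, At G r G' r' a (α y) b (β y)) →
      (Sat G P r φ (update α x a) ↔ Sat G' P' r' φ (update β x b)) := by
    intro a b hab hat
    apply IH
    · intro i hi
      by_cases hix : i = x
      · subst hix
        rw [update_self, update_self]; exact hab hi
      · rw [update_of_ne hix, update_of_ne hix]
        exact (h1 i (by rw [hY]; exact Finset.mem_erase.2 ⟨hix, hi⟩)).mono (by omega)
    · intro i hi l hl
      by_cases hix : i = x
      · subst hix
        by_cases hlx : l = i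
        · subst hlx; rw [update_self, update_self]; exact At.refl U U' _ _
        · rw [update_self, update_self, update_of_ne hlx, update_of_ne hlx]
          exact hat hi l (by rw [hY]; exact Finset.mem_erase.2 ⟨hlx, hl⟩)
      · have hiY : i ∈ Y := by rw [hY]; exact Finset.mem_erase.2 ⟨hix, hi⟩
        by_cases hlx : l = x
        · subst hlx
          rw [update_self, update_self, update_of_ne hix, update_of_ne hix]
          exact (hat hl i hiY).swap
        · rw [update_of_ne hix, update_of_ne hix, update_of_ne hlx, update_of_ne hlx]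
          exact h2 i hiY l (by rw [hY]; exact Finset.mem_erase.2 ⟨hlx, hl⟩)
  by_cases hx : x ∈ fv φ
  · have hYc : Y.card ≤ 1 := by
      rw [hY, Finset.card_erase_of_mem hx]; omega
    rcases Finset.eq_empty_or_nonempty Y with hYe | ⟨y, hy⟩
    · obtain ⟨D, g, hg, hD1, hD2⟩ := ext_single U U' hj1 hjR
      refine count_transfer hk D g hg ?_ ?_ h
      · intro a ha hs
        refine (key a (g a) (fun _ => hD1 a ha) ?_).1 hs
        intro _ y hy; rw [hYe] at hy; simp at hy
      · intro a ha hs
        obtain ⟨f, hf, hfu⟩ := hD2 a ha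
        refine ⟨f, hf, fun u => (key a (f u) (fun _ => hfu u) ?_).1 hs⟩
        intro _ y hy; rw [hYe] at hy; simp at hy
    · have hYy : ∀ z ∈ Y, z = y := fun z hz => Finset.card_le_one.1 hYc z hz y hy
      obtain ⟨D, g, hg, hD1, hD2⟩ := ext_pair U U' hj1 hjR (h1 y hy)
      refine count_transfer hk D g hg ?_ ?_ h
      · intro a ha hs
        refine (key a (g a) (fun _ => (hD1 a ha).1) ?_).1 hs
        intro _ z hz; rw [hYy z hz]; exact (hD1 a ha).2
      · intro a ha hs
        obtain ⟨f, hf, hfu⟩ := hD2 a ha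
        refine ⟨f, hf, fun u => (key a (f u) (fun _ => (hfu u).1) ?_).1 hs⟩
        intro _ z hz; rw [hYy z hz]; exact (hfu u).2
  · -- the quantified variable does not occur
    have hk0 : ∃ f : Fin k → W, Injective f := by
      obtain ⟨D, g, hg, hD1, hD2⟩ := ext_single U' U' hj1 hjR
      obtain ⟨b⟩ := (inferInstance : Nonempty W)
      have : ∃ δ : Bool, ∀ s, U'.e s = b → K.lev s ≤ j → K.side s = δ := by
        by_cases h : ∃ s, U'.e s = b
        · obtain ⟨s, hs⟩ := h
          refine ⟨K.side s, ?_⟩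
          intro t ht _
          rw [U'.inj (ht.trans hs.symm)]
        · exact ⟨true, fun s hs => absurd ⟨s, hs⟩ h⟩
      obtain ⟨δ, hδ⟩ := this
      obtain ⟨f, hf, -⟩ := U'.F j hj1 hjR b δ hδ (fun _ => True) (fun _ => True) True
        (fun _ _ _ => Iff.rfl)
      exact ⟨f, hf⟩
    refine count_transfer hk (fun _ => False) (fun _ => Classical.arbitrary W) ?_ ?_ ?_ h
    · intro a b ha; exact absurd ha id
    · intro a ha; exact absurd ha id
    · intro a _ hs
      obtain ⟨f, hf⟩ := hk0
      exact ⟨f, hf, fun u => (key a (f u) (fun h => absurd h hx) (fun h => absurd h hx)).1 hs⟩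

theorem subf_self (φ : Fml C) : φ ∈ Subf φ := by
  cases φ <;> simp [Subf]

/-- The main back-and-forth lemma. -/
theorem sat_two [Nonempty V] [Nonempty W] {N : ℕ}
    (U : Setup K idx G P r) (U' : Setup K idx G' P' r')
    (hE : Ext G P N k) (hE' : Ext G' P' N k) (φ : Fml C) :
    sz φ ≤ N → mk φ ≤ k → TwoVarLt φ → (fv φ).card ≤ 2 → ∀ j, rk φ ≤ j → j ≤ R →
    ∀ (α : ℕ → V) (β : ℕ → W), (∀ i ∈ fv φ, Mt U U' j (α i) (β i)) →
      (∀ i ∈ fv φ, ∀ l ∈ fv φ, At G r G' r' (α i) (α l) (β i) (β l)) →
      (Sat G P r φ α ↔ Sat G' P' r' φ β) := by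
  -- the order-free case
  have free : ∀ φ : Fml C, sz φ ≤ N → mk φ ≤ k → ¬ HasLt φ → ∀ j (α : ℕ → V) (β : ℕ → W),
      (∀ i ∈ fv φ, Mt U U' j (α i) (β i)) →
      (∀ i ∈ fv φ, ∀ l ∈ fv φ, At G r G' r' (α i) (α l) (β i) (β l)) →
      (Sat G P r φ α ↔ Sat G' P' r' φ β) := by
    intro φ hN hk hL j α β h1 h2
    refine sat_free hE hE' φ hN hk hL α β ?_ ?_
    · intro i hi l hl
      exact ⟨(h2 i hi l hl).1, (h2 i hi l hl).2.1⟩
    · intro i hi c
      exact (h1 i hi).col c
  induction φ with
  | eq i l =>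
    intro _ _ _ _ j _ _ α β h1 h2
    exact (h2 i (by simp [fv]) l (by simp [fv])).1
  | adj i l =>
    intro _ _ _ _ j _ _ α β h1 h2
    exact (h2 i (by simp [fv]) l (by simp [fv])).2.1
  | col c i =>
    intro _ _ _ _ j _ _ α β h1 h2
    exact (h1 i (by simp [fv])).col c
  | lt i l =>
    intro _ _ _ _ j _ _ α β h1 h2
    exact (h2 i (by simp [fv]) l (by simp [fv])).2.2.1
  | neg φ ih =>
    intro hN hk h2v hc j hj hjR α β h1 h2
    refine not_congr (ih hN hk ?_ hc j hj hjR α β h1 h2)
    intro ψ hψ; exact h2v ψ (by simp [Subf, hψ])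
  | and φ ψ ih1 ih2 =>
    intro hN hk h2v hc j hj hjR α β h1 h2
    simp only [sz] at hN
    simp only [mk] at hk
    simp only [rk] at hj
    have c1 : (fv φ).card ≤ 2 := (Finset.card_le_card (Finset.subset_union_left)).trans hc
    have c2 : (fv ψ).card ≤ 2 := (Finset.card_le_card (Finset.subset_union_right)).trans hc
    refine and_congr (ih1 (by omega) (by omega) ?_ c1 j (by omega) hjR α β ?_ ?_)
      (ih2 (by omega) (by omega) ?_ c2 j (by omega) hjR α β ?_ ?_)
    · intro χ hχ; exact h2v χ (by simp [Subf, hχ])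
    · intro i hi; exact h1 i (by simp [fv, hi])
    · intro i hi l hl; exact h2 i (by simp [fv, hi]) l (by simp [fv, hl])
    · intro χ hχ; exact h2v χ (by simp [Subf, hχ])
    · intro i hi; exact h1 i (by simp [fv, hi])
    · intro i hi l hl; exact h2 i (by simp [fv, hi]) l (by simp [fv, hl])
  | exGe k' x φ ih =>
    intro hN hk h2v hc j hj hjR α β h1 h2
    by_cases hL : HasLt (Fml.exGe k' x φ)
    swap
    · exact free _ hN hk hL j α β h1 h2
    simp only [sz] at hN
    simp only [mk] at hk
    simp only [rk] at hj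
    simp only [HasLt] at hL
    have hcφ : (fv φ).card ≤ 2 := h2v φ (by simp [Subf, subf_self]) hL
    have h2φ : TwoVarLt φ := fun ψ hψ => h2v ψ (by simp [Subf, hψ])
    have IH := ih hN (by omega) h2φ hcφ (j - 1) (by omega) (by omega)
    constructor
    · intro h
      exact step_two U U' (by omega) hjR (by omega) φ x hcφ IH α β h1 h2 h
    · intro h
      refine step_two U' U (by omega) hjR (by omega) φ x hcφ
        (fun β α h1 h2 => (IH α β (fun i hi => (h1 i hi).symm)
          (fun i hi l hl => (h2 i hi l hl).inv)).symm) β α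
        (fun i hi => (h1 i hi).symm) (fun i hi l hl => (h2 i hi l hl).inv) h

end

end Pool.Agent.Helper704_OI
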