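import Pool.Agent.Helper704_OI.Typ

/-!
Almost all labelled coloured graphs have the extension property with residues.
-/

namespace Pool.Agent.Helper704_OI

open Function Filter Topology

variable {C : Type}

/-- the modified graph: the adjacency between `v` and the points `x i` is prescribed -/
def modG {n N : ℕ} (x : Fin N → Fin n) (t : Fin N → Prop) (v : Fin n) (hv : ∀ i, x i ≠ v)
    (G : SimpleGraph (Fin n)) : SimpleGraph (Fin n) where
  Adj a b := (a = v ∧ ∃ i, x i = b ∧ t i) ∨ (b = v ∧ ∃ i, x i = a ∧ t i) ∨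
    (¬ (a = v ∧ ∃ i, x i = b) ∧ ¬ (b = v ∧ ∃ i, x i = a) ∧ G.Adj a b)
  symm := ⟨by
    intro a b h
    rcases h with h | h | ⟨h1, h2, h3⟩
    · exact Or.inr (Or.inl h)
    · exact Or.inl h
    · exact Or.inr (Or.inr ⟨h2, h1, h3.symm⟩)⟩
  loopless := ⟨by
    intro a h
    rcases h with ⟨rfl, i, hi, _⟩ | ⟨rfl, i, hi, _⟩ | ⟨_, _, h3⟩
    · exact hv i hi
    · exact hv i hi
    · exact G.loopless.irrefl _ h3⟩

theorem modG_adj {n N : ℕ} (x : Fin N → Fin n) (t : Fin N → Prop) (v : Fin n)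
    (hv : ∀ i, x i ≠ v) (hc : ∀ i j, x i = x j → (t i ↔ t j)) (G : SimpleGraph (Fin n)) (i : Fin N) :
    (modG x t v hv G).Adj v (x i) ↔ t i := by
  constructor
  · rintro (⟨_, j, hj, h⟩ | ⟨h, _⟩ | ⟨h, _, _⟩)
    · exact (hc _ _ hj).1 h
    · exact absurd h (hv i)
    · exact absurd ⟨rfl, i, rfl⟩ h
  · intro h
    exact Or.inl ⟨rfl, i, rfl, h⟩

theorem modG_other {n N : ℕ} (x : Fin N → Fin n) (t : Fin N → Prop) (v : Fin n)
    (hv : ∀ i, x i ≠ v) (G : SimpleGraph (Fin n)) (a b : Fin n)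
    (h1 : ¬ (a = v ∧ ∃ i, x i = b)) (h2 : ¬ (b = v ∧ ∃ i, x i = a)) :
    (modG x t v hv G).Adj a b ↔ G.Adj a b := by
  constructor
  · rintro (⟨h, j, hj, _⟩ | ⟨h, j, hj, _⟩ | ⟨_, _, h⟩)
    · exact absurd ⟨h, j, hj⟩ h1
    · exact absurd ⟨h, j, hj⟩ h2
    · exact h
  · intro h
    exact Or.inr (Or.inr ⟨h1, h2, h⟩)

/-- the vertex `v` has the prescribed type over `x` -/
def Mtch {n N : ℕ} (x : Fin N → Fin n) (t : Fin N → Prop) (c : C → Prop) (v : Fin n) :
    Set (SimpleGraph (Fin n) × (C → Fin n → Prop)) :=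
  {ω | (∀ i, ω.1.Adj v (x i) ↔ t i) ∧ ∀ c', (ω.2 c' v ↔ c c')}

/-- no vertex of `D` has the prescribed type over `x` -/
def Avoid {n N : ℕ} (x : Fin N → Fin n) (t : Fin N → Prop) (c : C → Prop) (D : Finset (Fin n)) :
    Set (SimpleGraph (Fin n) × (C → Fin n → Prop)) :=
  {ω | ∀ v ∈ D, ω ∉ Mtch x t c v}

theorem card_step [Finite C] {n N : ℕ} (x : Fin N → Fin n) (t : Fin N → Prop) (c : C → Prop)
    (hc : ∀ i j, x i = x j → (t i ↔ t j)) (v : Fin n) (hv : ∀ i, x i ≠ v)
    (D : Finset (Fin n)) (hvD : v ∉ D) :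
    (Avoid x t c D).ncard ≤
      (Avoid x t c D ∩ Mtch x t c v).ncard * Nat.card ((Fin N → Prop) × (C → Prop)) := by
  classical
  rw [← Set.ncard_univ ((Fin N → Prop) × (C → Prop)), ← Set.ncard_prod]
  refine Set.ncard_le_ncard_of_injOn
    (fun ω => ((modG x t v hv ω.1, fun c' w => (w = v ∧ c c') ∨ (w ≠ v ∧ ω.2 c' w)),
      (fun i => ω.1.Adj v (x i), fun c' => ω.2 c' v))) ?_ ?_ (Set.toFinite _)
  · intro ω hω
    refine ⟨⟨?_, ?_⟩, Set.mem_univ _⟩
    · intro w hw hm
      have hwv : w ≠ v := fun h => hvD (h ▸ hw)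
      apply hω w hw
      refine ⟨?_, ?_⟩
      · intro i
        rw [← hm.1 i]
        exact (modG_other x t v hv ω.1 w (x i) (fun h => hwv h.1) (fun h => hv i h.1)).symm
      · intro c'
        rw [← hm.2 c']
        simp [hwv]
    · refine ⟨?_, ?_⟩
      · intro i
        exact modG_adj x t v hv hc ω.1 i
      · intro c'
        simp
  · intro ω _ ω' _ h
    simp only [Prod.mk.injEq] at h
    obtain ⟨⟨h1, h2⟩, h3, h4⟩ := h
    apply Prod.ext
    · ext a b
      by_cases ha : a = v ∧ ∃ i, x i = b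
      · obtain ⟨rfl, i, rfl⟩ := ha
        exact iff_of_eq (congrFun h3 i)
      · by_cases hb : b = v ∧ ∃ i, x i = a
        · obtain ⟨rfl, i, rfl⟩ := hb
          rw [ω.1.adj_comm, ω'.1.adj_comm]
          exact iff_of_eq (congrFun h3 i)
        · rw [← modG_other x t v hv ω.1 a b ha hb, h1, modG_other x t v hv ω'.1 a b ha hb]
    · funext c' w
      by_cases hw : w = v
      · subst hw
        exact congrFun h4 c'
      · have := congrFun (congrFun h2 c') w
        simpa [hw] using this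

theorem card_avoid [Finite C] {n N : ℕ} (x : Fin N → Fin n) (t : Fin N → Prop) (c : C → Prop)
    (hc : ∀ i j, x i = x j → (t i ↔ t j)) (D : Finset (Fin n)) (hD : ∀ w ∈ D, ∀ i, x i ≠ w) :
    ((Avoid x t c D).ncard : ℝ) ≤
      (1 - 1 / (Nat.card ((Fin N → Prop) × (C → Prop)) : ℝ)) ^ D.card *
        (Nat.card (SimpleGraph (Fin n) × (C → Fin n → Prop)) : ℝ) := by
  classical
  set q : ℝ := (Nat.card ((Fin N → Prop) × (C → Prop)) : ℝ) with hq
  have hq0 : 0 < q := by rw [hq]; exact_mod_cast Nat.card_pos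
  have hq1 : 1 ≤ q := by rw [hq]; exact_mod_cast Nat.card_pos
  have hq2 : 0 ≤ 1 - 1 / q := by
    rw [sub_nonneg, div_le_one hq0]; exact hq1
  induction D using Finset.induction_on with
  | empty =>
    rw [Finset.card_empty, pow_zero, one_mul, ← Set.ncard_univ]
    exact_mod_cast Set.ncard_le_ncard (Set.subset_univ _) (Set.toFinite _)
  | insert v D hvD ih =>
    have ih' := ih (fun w hw => hD w (Finset.mem_insert_of_mem hw))
    have hst := card_step x t c hc v (hD v (Finset.mem_insert_self v D)) D hvD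
    have hsum := Set.ncard_inter_add_ncard_sdiff_eq_ncard (Avoid x t c D) (Mtch x t c v)
      (Set.toFinite _)
    have hsub : Avoid x t c (insert v D) ⊆ Avoid x t c D \ Mtch x t c v := by
      intro ω hω
      exact ⟨fun w hw => hω w (Finset.mem_insert_of_mem hw), hω v (Finset.mem_insert_self v D)⟩
    have hle := Set.ncard_le_ncard hsub (Set.toFinite _)
    have hst' : ((Avoid x t c D).ncard : ℝ) ≤ ((Avoid x t c D ∩ Mtch x t c v).ncard : ℝ) * q := by
      rw [hq]; exact_mod_cast hst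
    have hsum' : ((Avoid x t c D ∩ Mtch x t c v).ncard : ℝ) +
        ((Avoid x t c D \ Mtch x t c v).ncard : ℝ) = ((Avoid x t c D).ncard : ℝ) := by
      exact_mod_cast hsum
    have hle' : ((Avoid x t c (insert v D)).ncard : ℝ) ≤
        ((Avoid x t c D \ Mtch x t c v).ncard : ℝ) := by exact_mod_cast hle
    have h1 : ((Avoid x t c D).ncard : ℝ) / q ≤ ((Avoid x t c D ∩ Mtch x t c v).ncard : ℝ) := by
      rw [div_le_iff₀ hq0]; exact hst'
    rw [Finset.card_insert_of_notMem hvD, pow_succ]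
    calc ((Avoid x t c (insert v D)).ncard : ℝ)
        ≤ ((Avoid x t c D).ncard : ℝ) - ((Avoid x t c D).ncard : ℝ) / q := by linarith
      _ = (1 - 1 / q) * ((Avoid x t c D).ncard : ℝ) := by ring
      _ ≤ (1 - 1 / q) * ((1 - 1 / q) ^ D.card *
            (Nat.card (SimpleGraph (Fin n) × (C → Fin n → Prop)) : ℝ)) :=
          mul_le_mul_of_nonneg_left ih' hq2
      _ = _ := by ring

/-- the number of vertices with a given residue -/
theorem card_residue {n M ρ : ℕ} (hρ : ρ < M) :
    n / M ≤ ((Finset.univ : Finset (Fin n)).filter (fun v => v.val % M = ρ)).card := by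
  classical
  have hM : 0 < M := by omega
  have hlt : ∀ i : Fin (n / M), ρ + M * i.val < n := by
    intro i
    have h1 : M * (i.val + 1) ≤ M * (n / M) := Nat.mul_le_mul_left M i.2
    have h2 : M * (n / M) ≤ n := Nat.mul_div_le n M
    have h3 : M * (i.val + 1) = M * i.val + M := by ring
    omega
  let g : Fin (n / M) → Fin n := fun i => ⟨ρ + M * i.val, hlt i⟩
  have hg : Injective g := by
    intro i j hij
    have h : ρ + M * i.val = ρ + M * j.val := congrArg Fin.val hij
    apply Fin.ext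
    have h' : M * i.val = M * j.val := by omega
    exact Nat.eq_of_mul_eq_mul_left hM h'
  calc n / M = (Finset.univ.image g).card := by
        rw [Finset.card_image_of_injective _ hg]; simp
    _ ≤ _ := by
        apply Finset.card_le_card
        intro v hv
        obtain ⟨i, -, rfl⟩ := Finset.mem_image.1 hv
        simp only [Finset.mem_filter, Finset.mem_univ, true_and, g]
        rw [Nat.add_mul_mod_self_left, Nat.mod_eq_of_lt hρ]

/-- the structures with the extension property -/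
def TypS (C : Type) (N M n : ℕ) : Set (SimpleGraph (Fin n) × (C → Fin n → Prop)) :=
  {ω | ExtR ω.1 ω.2 N M}

theorem bad_bound [Finite C] {n N M : ℕ} (hn : 0 < n) :
    (((TypS C N M n)ᶜ).ncard : ℝ) ≤
      (n : ℝ) ^ N * (Nat.card ((Fin N → Prop) × (C → Prop)) : ℝ) * M *
        ((1 - 1 / (Nat.card ((Fin N → Prop) × (C → Prop)) : ℝ)) ^ (n / M - N) *
        (Nat.card (SimpleGraph (Fin n) × (C → Fin n → Prop)) : ℝ)) := by
  classical
  have : Fintype C := Fintype.ofFinite C
  set q : ℝ := (Nat.card ((Fin N → Prop) × (C → Prop)) : ℝ) with hq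
  have hq0 : 0 < q := by rw [hq]; exact_mod_cast Nat.card_pos
  have hq1 : 1 ≤ q := by rw [hq]; exact_mod_cast Nat.card_pos
  have hq2 : 0 ≤ 1 - 1 / q := by
    rw [sub_nonneg, div_le_one hq0]; exact hq1
  have hq3 : 1 - 1 / q ≤ 1 := by
    have : 0 ≤ 1 / q := by positivity
    linarith
  let I := (Fin N → Fin n) × ((Fin N → Prop) × (C → Prop)) × Fin M
  let Dd : I → Finset (Fin n) := fun i =>
    (Finset.univ.filter (fun v : Fin n => v.val % M = i.2.2.val)) \ Finset.univ.image i.1
  let B : I → Set (SimpleGraph (Fin n) × (C → Fin n → Prop)) := fun i =>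
    {ω | (∀ a b, i.1 a = i.1 b → (i.2.1.1 a ↔ i.2.1.1 b)) ∧ ω ∈ Avoid i.1 i.2.1.1 i.2.1.2 (Dd i)}
  have hcov : (TypS C N M n)ᶜ ⊆ ⋃ i : I, B i := by
    intro ω hω
    have hω' : ¬ ExtR ω.1 ω.2 N M := hω
    unfold ExtR at hω'
    push Not at hω'
    obtain ⟨X, hX, t, c, ρ, hρ, hv⟩ := hω'
    -- enumerate X
    obtain ⟨x, hx⟩ : ∃ x : Fin N → Fin n, ∀ y ∈ X, ∃ i, x i = y := by
      by_cases hXe : X.Nonempty
      · obtain ⟨y0, hy0⟩ := hXe
        let e := X.equivFin
        refine ⟨fun i => if h : i.val < X.card then (e.symm ⟨i.val, h⟩).val else y0, ?_⟩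
        intro y hy
        have hlt : (e ⟨y, hy⟩).val < X.card := (e ⟨y, hy⟩).2
        refine ⟨⟨(e ⟨y, hy⟩).val, lt_of_lt_of_le hlt hX⟩, ?_⟩
        simp only [dif_pos hlt, Fin.eta, Equiv.symm_apply_apply]
      · refine ⟨fun _ => ⟨0, hn⟩, ?_⟩
        intro y hy
        exact absurd ⟨y, hy⟩ hXe
    refine Set.mem_iUnion.2 ⟨(x, ((fun i => t (x i)), c), ⟨ρ, hρ⟩), ?_, ?_⟩
    · intro a b hab
      simp only at hab ⊢
      rw [hab]
    · intro v hvD hm
      simp only [Dd, Finset.mem_sdiff, Finset.mem_filter, Finset.mem_univ, true_and,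
        Finset.mem_image, not_exists] at hvD
      obtain ⟨hvm, hvx⟩ := hvD
      have hvX : v ∉ X := by
        intro h
        obtain ⟨i, hi⟩ := hx v h
        exact hvx i hi
      obtain ⟨c', hc'⟩ := hv v hvX hvm (by
        intro y hy
        obtain ⟨i, rfl⟩ := hx y hy
        exact hm.1 i)
      have := hm.2 c'
      simp only at this
      tauto
  have hB : ∀ i : I, ((B i).ncard : ℝ) ≤ (1 - 1 / q) ^ (n / M - N) *
      (Nat.card (SimpleGraph (Fin n) × (C → Fin n → Prop)) : ℝ) := by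
    intro i
    by_cases hc : ∀ a b, i.1 a = i.1 b → (i.2.1.1 a ↔ i.2.1.1 b)
    · have hsub : B i ⊆ Avoid i.1 i.2.1.1 i.2.1.2 (Dd i) := fun ω hω => hω.2
      have h1 : ((B i).ncard : ℝ) ≤ ((Avoid i.1 i.2.1.1 i.2.1.2 (Dd i)).ncard : ℝ) := by
        exact_mod_cast Set.ncard_le_ncard hsub (Set.toFinite _)
      have h2 := card_avoid i.1 i.2.1.1 i.2.1.2 hc (Dd i) (by
        intro w hw j hj
        simp only [Dd, Finset.mem_sdiff, Finset.mem_image, Finset.mem_univ, true_and,
          not_exists] at hw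
        exact hw.2 j hj)
      have hcard : n / M - N ≤ (Dd i).card := by
        have h3 := card_residue (n := n) i.2.2.2
        have h4 : (Finset.univ.image i.1).card ≤ N := by
          have := Finset.card_image_le (s := (Finset.univ : Finset (Fin N))) (f := i.1)
          simpa using this
        have h5 := Finset.le_card_sdiff (Finset.univ.image i.1)
          (Finset.univ.filter (fun v : Fin n => v.val % M = i.2.2.val))
        simp only [Dd]
        omega
      refine h1.trans (h2.trans ?_)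
      apply mul_le_mul_of_nonneg_right _ (by positivity)
      exact pow_le_pow_of_le_one hq2 hq3 hcard
    · have : B i = ∅ := by
        ext ω
        simp only [B, Set.mem_ofPred_eq, Set.mem_empty_iff_false, iff_false, not_and]
        intro h; exact absurd h hc
      rw [this]
      simp only [Set.ncard_empty, Nat.cast_zero]
      positivity
  have h1 : (((TypS C N M n)ᶜ).ncard : ℝ) ≤ ((⋃ i : I, B i).ncard : ℝ) := by
    exact_mod_cast Set.ncard_le_ncard hcov (Set.toFinite _)
  have h2 : ((⋃ i : I, B i).ncard : ℝ) ≤ ∑ i : I, ((B i).ncard : ℝ) := by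
    exact_mod_cast Set.ncard_iUnion_le_of_fintype B
  have h3 : ∑ i : I, ((B i).ncard : ℝ) ≤ ∑ _i : I, (1 - 1 / q) ^ (n / M - N) *
      (Nat.card (SimpleGraph (Fin n) × (C → Fin n → Prop)) : ℝ) :=
    Finset.sum_le_sum (fun i _ => hB i)
  have h4 : (Fintype.card I : ℝ) = (n : ℝ) ^ N * q * M := by
    simp only [I, Fintype.card_prod, Fintype.card_fun, Fintype.card_fin, hq,
      Nat.card_eq_fintype_card]
    push_cast
    ring
  rw [Finset.sum_const, nsmul_eq_mul, Finset.card_univ, h4] at h3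
  exact h1.trans (h2.trans h3)

theorem bad_tendsto (C : Type) [Finite C] (N M : ℕ) (hM : 0 < M) :
    Tendsto (fun n => (((TypS C N M n)ᶜ).ncard : ℝ) /
      (Nat.card (SimpleGraph (Fin n) × (C → Fin n → Prop)) : ℝ)) atTop (𝓝 0) := by
  set q : ℝ := (Nat.card ((Fin N → Prop) × (C → Prop)) : ℝ) with hq
  have hq0 : 0 < q := by rw [hq]; exact_mod_cast Nat.card_pos
  have hq1 : 1 ≤ q := by rw [hq]; exact_mod_cast Nat.card_pos
  have hq2 : 0 ≤ 1 - 1 / q := by
    rw [sub_nonneg, div_le_one hq0]; exact hq1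
  have hq3 : 1 - 1 / q < 1 := by
    have : 0 < 1 / q := by positivity
    linarith
  -- the bound as a function of `m = n / M`
  have hlim : Tendsto (fun m : ℕ => ((M : ℝ) * (m + 1 + N)) ^ N * q * M * (1 - 1 / q) ^ (m - N))
      atTop (𝓝 0) := by
    have h0 := tendsto_pow_const_mul_const_pow_of_abs_lt_one N
      (r := 1 - 1 / q) (by rw [abs_of_nonneg hq2]; exact hq3)
    have h1 : Tendsto (fun m : ℕ => (m : ℝ) ^ N * (1 - 1 / q) ^ m * ((M : ℝ) * (2 + 2 * N)) ^ N * q * M)
        atTop (𝓝 0) := by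
      have := ((h0.mul_const (((M : ℝ) * (2 + 2 * N)) ^ N)).mul_const q).mul_const (M : ℝ)
      simpa using this
    have h2 : Tendsto (fun m : ℕ => m - N) atTop atTop := tendsto_sub_atTop_nat N
    have h3 := h1.comp h2
    refine squeeze_zero' ?_ ?_ h3
    · filter_upwards with m
      positivity
    · filter_upwards [eventually_ge_atTop (N + 1)] with m hm
      simp only [comp_apply]
      have hm1 : 1 ≤ m - N := by omega
      have hcast : ((m - N : ℕ) : ℝ) = (m : ℝ) - N := by
        rw [Nat.cast_sub (by omega)]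
      have hm1' : (1 : ℝ) ≤ ((m - N : ℕ) : ℝ) := by exact_mod_cast hm1
      have hle : (M : ℝ) * (m + 1 + N) ≤ ((m - N : ℕ) : ℝ) * ((M : ℝ) * (2 + 2 * N)) := by
        have hN0 : (0 : ℝ) ≤ N := by positivity
        have e1 : (m : ℝ) + 1 + N ≤ ((m - N : ℕ) : ℝ) * (2 + 2 * N) := by
          have : (m : ℝ) = ((m - N : ℕ) : ℝ) + N := by rw [hcast]; ring
          rw [this]
          nlinarith
        have hM0 : (0 : ℝ) ≤ M := by positivity
        calc (M : ℝ) * (m + 1 + N) ≤ M * (((m - N : ℕ) : ℝ) * (2 + 2 * N)) :=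
              mul_le_mul_of_nonneg_left e1 hM0
          _ = _ := by ring
      have hpow : ((M : ℝ) * (m + 1 + N)) ^ N ≤ (((m - N : ℕ) : ℝ) * ((M : ℝ) * (2 + 2 * N))) ^ N :=
        pow_le_pow_left₀ (by positivity) hle N
      calc ((M : ℝ) * (m + 1 + N)) ^ N * q * M * (1 - 1 / q) ^ (m - N)
          ≤ (((m - N : ℕ) : ℝ) * ((M : ℝ) * (2 + 2 * N))) ^ N * q * M * (1 - 1 / q) ^ (m - N) := by
            gcongr
        _ = _ := by rw [mul_pow]; ring
  have hdiv : Tendsto (fun n : ℕ => n / M) atTop atTop := Nat.tendsto_div_const_atTop hM.ne'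
  have hlim2 := hlim.comp hdiv
  refine squeeze_zero' ?_ ?_ hlim2
  · filter_upwards with n
    positivity
  · filter_upwards [eventually_gt_atTop 0] with n hn
    simp only [comp_apply]
    have hb := bad_bound (C := C) (N := N) (M := M) hn
    have htot : (0 : ℝ) < (Nat.card (SimpleGraph (Fin n) × (C → Fin n → Prop)) : ℝ) := by
      have : Nonempty (SimpleGraph (Fin n) × (C → Fin n → Prop)) := ⟨(⊥, fun _ _ => True)⟩
      exact_mod_cast Nat.card_pos
    rw [div_le_iff₀ htot]
    refine hb.trans ?_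
    have hnM : (n : ℝ) ≤ (M : ℝ) * (((n / M : ℕ) : ℝ) + 1 + N) := by
      have h1 : n < M * (n / M + 1) := by
        have := Nat.div_add_mod n M
        have := Nat.mod_lt n hM
        have h3 : M * (n / M + 1) = M * (n / M) + M := by ring
        omega
      have h2 : (n : ℝ) ≤ (M : ℝ) * (((n / M : ℕ) : ℝ) + 1) := by exact_mod_cast h1.le
      have h3 : (0 : ℝ) ≤ (M : ℝ) * N := by positivity
      nlinarith
    rw [← mul_assoc]
    gcongr

end Pool.Agent.Helper704_OI
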