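import Pool.Agent.Helper704_OI.Dens

/-!
Zero-one law for order-invariant sentences (with counting quantifiers) in which every subformula
containing `<` has at most two free variables.
-/

namespace Pool.Agent.Helper704_OI.TwoVariableOrder

open Pool.Agent.Helper704_OI Filter Topology

/-- Let `φ` be a sentence of first-order logic with counting quantifiers over coloured ordered
graphs such that every subformula of `φ` in which `<` occurs has at most two free variables. If
`φ` is order-invariant, then the fraction `mu φ n` of labelled coloured graphs on `n` vertices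
with the property defined by `φ` tends to `0` or to `1`. -/
theorem result (C : Type) [Finite C] (φ : Fml C) (hφ : fv φ = ∅) (h2 : TwoVarLt φ)
    (hinv : OrderInvariant φ) :
    Tendsto (mu φ) atTop (𝓝 0) ∨ Tendsto (mu φ) atTop (𝓝 1) := by
  classical
  obtain ⟨K⟩ := exists_skel C (mk φ + 1) (rk φ + 1)
  have := K.fin
  obtain ⟨idx, hidx⟩ := exists_injective_nat K.S
  refine zero_one_of_agree φ hinv (N := sz φ + Nat.card K.S + 1) (M := 2 * (mk φ + 1))
    (by omega) ?_
  intro n m hn hm ω hω ω' hω'
  obtain ⟨r, hr, ⟨U⟩⟩ := exists_setup (N := sz φ + Nat.card K.S + 1) hn (by omega) (by omega) K idx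
    hidx (by omega) ω.1 ω.2 hω
  obtain ⟨r', hr', ⟨U'⟩⟩ := exists_setup (N := sz φ + Nat.card K.S + 1) hm (by omega) (by omega) K
    idx hidx (by omega) ω'.1 ω'.2 hω'
  refine ⟨r, r', hr, hr', ?_⟩
  have : Nonempty (Fin n) := ⟨⟨0, hn⟩⟩
  have : Nonempty (Fin m) := ⟨⟨0, hm⟩⟩
  have key : ∀ (α : ℕ → Fin n) (β : ℕ → Fin m), (Sat ω.1 ω.2 r φ α ↔ Sat ω'.1 ω'.2 r' φ β) := by
    intro α β
    refine sat_two (N := sz φ + Nat.card K.S + 1) U U' (ExtR.ext hω (by omega))
      (ExtR.ext hω' (by omega)) φ (by omega) (by omega) h2 (by rw [hφ]; simp) (rk φ + 1)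
      (by omega) le_rfl α β ?_ ?_
    · intro i hi; rw [hφ] at hi; simp at hi
    · intro i hi; rw [hφ] at hi; simp at hi
  constructor
  · intro h β
    exact (key (fun _ => Classical.arbitrary _) β).1 (h _)
  · intro h α
    exact (key α (fun _ => Classical.arbitrary _)).2 (h _)

end Pool.Agent.Helper704_OI.TwoVariableOrder
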