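import Pool.Agent.Helper704_OI.Main1

/-!
Construction of the order on a graph with strong extension properties.
-/

namespace Pool.Agent.Helper704_OI

open Function

variable {C : Type}

/-- extension property with residues: over every set of at most `N` vertices every type is
realised by a vertex whose number has a prescribed residue modulo `M` -/
def ExtR {n : ℕ} (G : SimpleGraph (Fin n)) (P : C → Fin n → Prop) (N M : ℕ) : Prop :=
  ∀ X : Finset (Fin n), X.card ≤ N → ∀ (t : Fin n → Prop) (c : C → Prop) (ρ : ℕ), ρ < M →
    ∃ v, v ∉ X ∧ v.val % M = ρ ∧ (∀ x ∈ X, (G.Adj v x ↔ t x)) ∧ ∀ c', (P c' v ↔ c c')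

theorem ExtR.ext {n : ℕ} {G : SimpleGraph (Fin n)} {P : C → Fin n → Prop} {N M k : ℕ}
    (h : ExtR G P N M) (hk : k ≤ M) : Ext G P N k := by
  intro X hX t c
  have h' : ∀ u : Fin k, ∃ v, v ∉ X ∧ v.val % M = u.val ∧ (∀ x ∈ X, (G.Adj v x ↔ t x)) ∧
      ∀ c', (P c' v ↔ c c') := fun u => h X hX t c u.val (lt_of_lt_of_le u.2 hk)
  choose f hf using h'
  refine ⟨f, ?_, fun u => ⟨(hf u).1, (hf u).2.2.1, (hf u).2.2.2⟩⟩
  intro u v huv
  have h1 := (hf u).2.1
  have h2 := (hf v).2.1
  rw [huv, h2] at h1
  exact Fin.ext h1.symm

theorem exists_emb {V S : Type} [Finite S] [Nonempty V] {G : SimpleGraph V} {P : C → V → Prop}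
    {N : ℕ} (hE : Ext G P N 1) (adj : S → S → Prop) (hsymm : ∀ s t, adj s t → adj t s)
    (hirr : ∀ s, ¬ adj s s) (col : S → C → Prop) (hN : Nat.card S ≤ N + 1) :
    ∃ e : S → V, Injective e ∧ (∀ s t, (G.Adj (e s) (e t) ↔ adj s t)) ∧
      ∀ s c, (P c (e s) ↔ col s c) := by
  classical
  have := Fintype.ofFinite S
  have main : ∀ F : Finset S, ∃ e : S → V, (∀ s ∈ F, ∀ t ∈ F, e s = e t → s = t) ∧
      (∀ s ∈ F, ∀ t ∈ F, (G.Adj (e s) (e t) ↔ adj s t)) ∧ ∀ s ∈ F, ∀ c, (P c (e s) ↔ col s c) := by
    intro F
    induction F using Finset.induction_on with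
    | empty => exact ⟨fun _ => Classical.arbitrary V, by simp, by simp, by simp⟩
    | insert a F ha ih =>
      obtain ⟨e, h1, h2, h3⟩ := ih
      have hc : (F.image e).card ≤ N := by
        have : (insert a F).card ≤ Nat.card S := by
          rw [Nat.card_eq_fintype_card]; exact Finset.card_le_univ _
        rw [Finset.card_insert_of_notMem ha] at this
        have := Finset.card_image_le (s := F) (f := e)
        omega
      obtain ⟨f, -, hf⟩ := hE (F.image e) hc (fun x => ∃ t ∈ F, e t = x ∧ adj a t) (col a)
      obtain ⟨hf1, hf2, hf3⟩ := hf 0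
      have hne : ∀ s ∈ F, f 0 ≠ e s := by
        intro s hs h
        exact hf1 (by rw [h]; exact Finset.mem_image_of_mem e hs)
      have hadj : ∀ s ∈ F, (G.Adj (f 0) (e s) ↔ adj a s) := by
        intro s hs
        rw [hf2 (e s) (Finset.mem_image_of_mem e hs)]
        constructor
        · rintro ⟨t, ht, hts, h⟩
          rw [← h1 t ht s hs hts]; exact h
        · intro h; exact ⟨s, hs, rfl, h⟩
      have hupd : ∀ s ∈ F, update e a (f 0) s = e s := by
        intro s hs
        apply update_of_ne
        rintro rfl; exact ha hs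
      refine ⟨update e a (f 0), ?_, ?_, ?_⟩
      · intro s hs t ht hst
        rcases Finset.mem_insert.1 hs with hsa | hs'
        · rcases Finset.mem_insert.1 ht with hta | ht'
          · rw [hsa, hta]
          · rw [hsa, update_self, hupd t ht'] at hst
            exact absurd hst (hne t ht')
        · rcases Finset.mem_insert.1 ht with hta | ht'
          · rw [hta, update_self, hupd s hs'] at hst
            exact absurd hst.symm (hne s hs')
          · rw [hupd s hs', hupd t ht'] at hst
            exact h1 s hs' t ht' hst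
      · intro s hs t ht
        rcases Finset.mem_insert.1 hs with hsa | hs'
        · rcases Finset.mem_insert.1 ht with hta | ht'
          · simp [hsa, hta, hirr]
          · rw [hsa, update_self, hupd t ht']
            exact hadj t ht'
        · rcases Finset.mem_insert.1 ht with hta | ht'
          · rw [hta, update_self, hupd s hs', G.adj_comm, hadj s hs']
            exact ⟨hsymm _ _, hsymm _ _⟩
          · rw [hupd s hs', hupd t ht']
            exact h2 s hs' t ht'
      · intro s hs c
        rcases Finset.mem_insert.1 hs with hsa | hs'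
        · rw [hsa, update_self]; exact hf3 c
        · rw [hupd s hs']; exact h3 s hs' c
  obtain ⟨e, h1, h2, h3⟩ := main Finset.univ
  exact ⟨e, fun s t h => h1 s (by simp) t (by simp) h, fun s t => h2 s (by simp) t (by simp),
    fun s => h3 s (by simp)⟩

/-- a strict total order from an injective key into the lexicographic product -/
theorem strict_of_key {V : Type} (z t : V → ℕ) (hinj : ∀ a b, z a = z b → t a = t b → a = b) :
    IsStrictTotalOrder V (fun a b => z a < z b ∨ (z a = z b ∧ t a < t b)) where
  trichotomous := by
    intro a b h1 h2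
    push Not at h1 h2
    have e1 : z a = z b := le_antisymm h2.1 h1.1
    exact hinj a b e1 (le_antisymm (h2.2 e1.symm) (h1.2 e1))
  irrefl := by
    intro a h
    rcases h with h | ⟨_, h⟩ <;> omega
  trans := by
    intro a b c h1 h2
    rcases h1 with h1 | ⟨h1, h1'⟩ <;> rcases h2 with h2 | ⟨h2, h2'⟩
    · left; omega
    · left; omega
    · left; omega
    · right; exact ⟨by omega, by omega⟩

theorem exists_setup {n k R N : ℕ} (hn : 0 < n) (hR : 1 ≤ R) (hk : 1 ≤ k) (K : Skel C k R)
    (idx : K.S → ℕ) (hidx : Injective idx) (hN : Nat.card K.S + 1 ≤ N)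
    (G : SimpleGraph (Fin n)) (P : C → Fin n → Prop) (hE : ExtR G P N (2 * k)) :
    ∃ r : Fin n → Fin n → Prop, IsStrictTotalOrder (Fin n) r ∧ Nonempty (Setup K idx G P r) := by
  classical
  have := K.fin
  have := Fintype.ofFinite K.S
  have : Nonempty (Fin n) := ⟨⟨0, hn⟩⟩
  obtain ⟨e, he, headj, hecol⟩ := exists_emb (N := N) (hE.ext (k := 1) (by omega)) K.adj K.symm
    K.irr K.col (by omega)
  -- good vertices
  let good : Fin n → Prop := fun v => ∀ (b : Bool) (c : C → Prop) (A : K.S → Prop) (ε : Prop),
    ∃ f : Fin k → K.S, Injective f ∧ ∀ u, K.lev (f u) = R ∧ K.side (f u) = b ∧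
      (∀ c', K.col (f u) c' ↔ c c') ∧ (∀ s, K.lev s + 2 ≤ R → (K.adj (f u) s ↔ A s)) ∧
      (G.Adj v (e (f u)) ↔ ε)
  have hgood : ∀ v, (∀ s, K.lev s = R → (G.Adj v (e s) ↔ K.T s)) → good v := by
    intro v hv b c A ε
    obtain ⟨f, hf, hfu⟩ := K.P2 R hR le_rfl b c A ε
    refine ⟨f, hf, fun u => ?_⟩
    obtain ⟨h1, h2, h3, h4, h5⟩ := hfu u
    exact ⟨h1, h2, h3, h4, (hv _ h1).trans h5⟩
  let inS : Fin n → Prop := fun v => ∃ s, e s = v
  let z : Fin n → ℕ := fun v => if h : ∃ s, e s = v then K.zn h.choose else
    if good v then (if v.val % (2 * k) < k then R + 1 else R + 3) else R + 2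
  let t : Fin n → ℕ := fun v => if h : ∃ s, e s = v then idx h.choose else v.val
  have hzS : ∀ s, z (e s) = K.zn s := by
    intro s
    have h : ∃ s', e s' = e s := ⟨s, rfl⟩
    have h' : h.choose = s := he h.choose_spec
    simp only [z, dif_pos h, h']
  have htS : ∀ s, t (e s) = idx s := by
    intro s
    have h : ∃ s', e s' = e s := ⟨s, rfl⟩
    have h' : h.choose = s := he h.choose_spec
    simp only [t, dif_pos h, h']
  have hzn1 : ∀ s, K.side s = true → K.zn s = K.lev s := by
    intro s hs; simp [Skel.zn, hs]
  have hzn2 : ∀ s, K.side s = false → K.zn s = 2 * R + 4 - K.lev s := by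
    intro s hs; simp [Skel.zn, hs]
  have hznR : ∀ s, K.zn s ≤ R ∨ R + 4 ≤ K.zn s := by
    intro s
    have := K.lev_le s
    cases hs : K.side s with
    | true => left; rw [hzn1 s hs]; exact this
    | false => right; rw [hzn2 s hs]; omega
  have hzO : ∀ v, (∀ s, e s ≠ v) → R + 1 ≤ z v ∧ z v ≤ R + 3 := by
    intro v hv
    have h : ¬ ∃ s, e s = v := by rintro ⟨s, hs⟩; exact hv s hs
    simp only [z, dif_neg h]
    split_ifs <;> omega
  have htO : ∀ v, (∀ s, e s ≠ v) → t v = v.val := by
    intro v hv
    have h : ¬ ∃ s, e s = v := by rintro ⟨s, hs⟩; exact hv s hs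
    simp only [t, dif_neg h]
  have hzG1 : ∀ v, (∀ s, e s ≠ v) → good v → v.val % (2 * k) < k → z v = R + 1 := by
    intro v hv hg hm
    have h : ¬ ∃ s, e s = v := by rintro ⟨s, hs⟩; exact hv s hs
    simp only [z, dif_neg h, if_pos hg, if_pos hm]
  have hzG3 : ∀ v, (∀ s, e s ≠ v) → good v → ¬ v.val % (2 * k) < k → z v = R + 3 := by
    intro v hv hg hm
    have h : ¬ ∃ s, e s = v := by rintro ⟨s, hs⟩; exact hv s hs
    simp only [z, dif_neg h, if_pos hg, if_neg hm]
  have hzB : ∀ v, (∀ s, e s ≠ v) → ¬ good v → z v = R + 2 := by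
    intro v hv hg
    have h : ¬ ∃ s, e s = v := by rintro ⟨s, hs⟩; exact hv s hs
    simp only [z, dif_neg h, if_neg hg]
  set r : Fin n → Fin n → Prop := fun a b => z a < z b ∨ (z a = z b ∧ t a < t b) with hr
  have hst : IsStrictTotalOrder (Fin n) r := by
    apply strict_of_key
    intro a b h1 h2
    by_cases ha : ∃ s, e s = a
    · obtain ⟨s, rfl⟩ := ha
      by_cases hb : ∃ s, e s = b
      · obtain ⟨s', rfl⟩ := hb
        rw [htS, htS] at h2
        rw [hidx h2]
      · have hb' : ∀ s, e s ≠ b := fun s hs => hb ⟨s, hs⟩
        have := hzO b hb'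
        rw [hzS] at h1
        have := hznR s
        omega
    · have ha' : ∀ s, e s ≠ a := fun s hs => ha ⟨s, hs⟩
      have hza := hzO a ha'
      by_cases hb : ∃ s, e s = b
      · obtain ⟨s', rfl⟩ := hb
        rw [hzS] at h1
        have := hznR s'
        omega
      · have hb' : ∀ s, e s ≠ b := fun s hs => hb ⟨s, hs⟩
        rw [htO a ha', htO b hb'] at h2
        exact Fin.ext h2
  -- choose vertices outside of the skeleton with a given type
  have pick : ∀ (X : Finset (Fin n)), (∀ s, e s ∈ X) → X.card ≤ N → ∀ (tt : Fin n → Prop)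
      (c : C → Prop) (o : ℕ), o = 0 ∨ o = k → ∃ f : Fin k → Fin n, Injective f ∧ ∀ u,
        f u ∉ X ∧ ((f u).val % (2 * k) = u.val + o) ∧ (∀ x ∈ X, (G.Adj (f u) x ↔ tt x)) ∧
        ∀ c', (P c' (f u) ↔ c c') := by
    intro X hX hXN tt c o ho
    have h' : ∀ u : Fin k, ∃ v, v ∉ X ∧ v.val % (2 * k) = u.val + o ∧
        (∀ x ∈ X, (G.Adj v x ↔ tt x)) ∧ ∀ c', (P c' v ↔ c c') := by
      intro u
      apply hE X hXN tt c
      have := u.2
      rcases ho with rfl | rfl <;> omega
    choose f hf using h'
    refine ⟨f, ?_, hf⟩
    intro u v huv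
    have h1 := (hf u).2.1
    have h2 := (hf v).2.1
    rw [huv] at h1
    apply Fin.ext
    omega
  refine ⟨r, hst, ⟨⟨e, he, headj, hecol, ?_, ?_, ?_, ?_, ?_⟩⟩⟩
  · intro a b h1 h2
    exact hst.irrefl a (hst.trans _ _ _ h1 h2)
  · intro a b hab
    by_contra h
    push Not at h
    exact hab (hst.trichotomous a b h.1 h.2)
  · intro s s'
    simp only [hr, hzS, htS]
  · intro s a ha
    have hls := K.lev_le s
    constructor
    · intro hs
      left
      rw [hzS, hzn1 s hs]
      by_cases h : ∃ s', e s' = a
      · obtain ⟨s', rfl⟩ := h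
        have := ha s' rfl
        have := K.lev_le s'
        rw [hzS]
        cases hs' : K.side s' with
        | true => rw [hzn1 s' hs']; assumption
        | false => rw [hzn2 s' hs']; omega
      · have := hzO a (fun s hs => h ⟨s, hs⟩)
        omega
    · intro hs
      left
      rw [hzS, hzn2 s hs]
      by_cases h : ∃ s', e s' = a
      · obtain ⟨s', rfl⟩ := h
        have := ha s' rfl
        have := K.lev_le s'
        rw [hzS]
        cases hs' : K.side s' with
        | true => rw [hzn1 s' hs']; omega
        | false => rw [hzn2 s' hs']; omega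
      · have := hzO a (fun s hs => h ⟨s, hs⟩)
        omega
  · intro j hj1 hjR a δ hδ c A ε hA
    by_cases haS : ∃ s, e s = a
    · obtain ⟨s₀, rfl⟩ := haS
      have hδ' : K.lev s₀ ≤ j → K.side s₀ = δ := hδ s₀ rfl
      have hA' : K.lev s₀ + 2 ≤ j → (ε ↔ A s₀) := hA s₀ rfl
      by_cases hside : K.side s₀ = δ
      · -- elements of the middle part
        obtain ⟨f, hf, hfu⟩ := pick (Finset.univ.image e) (fun s => by simp)
          (by
            have := Finset.card_image_le (s := (Finset.univ : Finset K.S)) (f := e)
            rw [Finset.card_univ, ← Nat.card_eq_fintype_card] at this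
            omega)
          (fun x => (x = e s₀ ∧ ε) ∨ (x ≠ e s₀ ∧ ∃ s, e s = x ∧ A s)) c 0 (Or.inl rfl)
        refine ⟨f, hf, ?_⟩
        intro u
        obtain ⟨h1, h2, h3, h4⟩ := hfu u
        have hout : ∀ s, e s ≠ f u := by
          intro s hs
          exact h1 (by rw [← hs]; simp)
        have hz := hzO (f u) hout
        have hzs := hznR s₀
        refine ⟨fun s hs => absurd hs (hout s), fun h => hout s₀ h.symm, h4, ?_, ?_, ?_, ?_⟩
        · intro s hs
          rw [h3 (e s) (by simp)]
          by_cases hss : s = s₀
          · subst hss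
            constructor
            · rintro (⟨_, h⟩ | ⟨h, _⟩)
              · exact (hA' hs).1 h
              · exact absurd rfl h
            · intro h; exact Or.inl ⟨rfl, (hA' hs).2 h⟩
          · constructor
            · rintro (⟨h, _⟩ | ⟨_, s', hs', h⟩)
              · exact absurd (he h) hss
              · rw [← he hs']; exact h
            · intro h
              exact Or.inr ⟨fun h' => hss (he h'), s, rfl, h⟩
        · rw [G.adj_comm, h3 (e s₀) (by simp)]
          constructor
          · rintro (⟨_, h⟩ | ⟨h, _⟩)
            · exact h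
            · exact absurd rfl h
          · intro h; exact Or.inl ⟨rfl, h⟩
        · intro hd
          left
          rw [hzS, hzn1 s₀ (hside.trans hd)]
          have := K.lev_le s₀
          omega
        · intro hd
          left
          rw [hzS, hzn2 s₀ (hside.trans hd)]
          have := K.lev_le s₀
          omega
      · -- elements of the skeleton, one level lower
        have hlev : j < K.lev s₀ := by
          by_contra h
          exact hside (hδ' (by omega))
        have hlR := K.lev_le s₀
        obtain ⟨f, hf, hfu⟩ := K.P2 (K.lev s₀ - 1) (by omega) (by omega) (K.side s₀) c A ε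
        refine ⟨fun u => e (f u), he.comp hf, ?_⟩
        intro u
        obtain ⟨h1, h2, h3, h4, h5⟩ := hfu u
        have hl1 : K.lev s₀ = K.lev (f u) + 1 := by omega
        refine ⟨?_, ?_, ?_, ?_, ?_, ?_, ?_⟩
        · intro s hs
          rw [he hs, h1]; omega
        · intro h
          have := he h
          rw [this] at h1; omega
        · intro c'
          rw [hecol, h3]
        · intro s hs
          rw [headj]
          exact h4 s (by omega)
        · rw [headj, K.P3 s₀ (f u) hl1]
          exact h5
        · intro hd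
          left
          have hs0 : K.side s₀ = false := by
            cases h : K.side s₀ with
            | true => exact absurd (h.trans hd.symm) hside
            | false => rfl
          rw [hzS, hzS, hzn2 _ hs0, hzn2 _ (h2.trans hs0)]
          omega
        · intro hd
          left
          have hs0 : K.side s₀ = true := by
            cases h : K.side s₀ with
            | true => rfl
            | false => exact absurd (h.trans hd.symm) hside
          rw [hzS, hzS, hzn1 _ hs0, hzn1 _ (h2.trans hs0)]
          omega
    · have ha' : ∀ s, e s ≠ a := fun s hs => haS ⟨s, hs⟩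
      by_cases hg : good a
      · -- use the last level of the skeleton
        obtain ⟨f, hf, hfu⟩ := hg (!δ) c A ε
        refine ⟨fun u => e (f u), he.comp hf, ?_⟩
        intro u
        obtain ⟨h1, h2, h3, h4, h5⟩ := hfu u
        have hz := hzO a ha'
        refine ⟨?_, ha' _, ?_, ?_, h5, ?_, ?_⟩
        · intro s hs
          rw [he hs, h1]; exact hjR
        · intro c'
          rw [hecol, h3]
        · intro s hs
          rw [headj]
          exact h4 s (by omega)
        · intro hd
          left
          rw [hzS, hzn2 _ (by rw [h2, hd]; rfl)]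
          omega
        · intro hd
          left
          rw [hzS, hzn1 _ (by rw [h2, hd]; rfl)]
          omega
      · -- use the good vertices on the two sides
        have hza := hzB a ha' hg
        have hcard : (insert a (Finset.univ.image e)).card ≤ N := by
          have h1 := Finset.card_image_le (s := (Finset.univ : Finset K.S)) (f := e)
          rw [Finset.card_univ, ← Nat.card_eq_fintype_card] at h1
          have h2 := Finset.card_insert_le a (Finset.univ.image e)
          omega
        obtain ⟨f, hf, hfu⟩ := pick (insert a (Finset.univ.image e)) (fun s => by simp) hcard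
          (fun x => (x = a ∧ ε) ∨ (x ≠ a ∧ ∃ s, e s = x ∧
            ((K.lev s = R ∧ K.T s) ∨ (K.lev s ≠ R ∧ A s)))) c (if δ then k else 0)
          (by cases δ <;> simp)
        refine ⟨f, hf, ?_⟩
        intro u
        obtain ⟨h1, h2, h3, h4⟩ := hfu u
        have hout : ∀ s, e s ≠ f u := by
          intro s hs
          exact h1 (by rw [← hs]; simp)
        have hfa : f u ≠ a := fun h => h1 (by rw [h]; simp)
        have htr : ∀ s, (G.Adj (f u) (e s) ↔ ((K.lev s = R ∧ K.T s) ∨ (K.lev s ≠ R ∧ A s))) := by
          intro s
          rw [h3 (e s) (by simp)]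
          constructor
          · rintro (⟨h, _⟩ | ⟨_, s', hs', h⟩)
            · exact absurd h (ha' s)
            · rw [← he hs']; exact h
          · intro h
            exact Or.inr ⟨ha' s, s, rfl, h⟩
        have hgf : good (f u) := by
          apply hgood
          intro s hs
          rw [htr]
          simp [hs]
        refine ⟨fun s hs => absurd hs (hout s), hfa, h4, ?_, ?_, ?_, ?_⟩
        · intro s hs
          rw [htr]
          have : K.lev s ≠ R := by omega
          simp [this]
        · rw [G.adj_comm, h3 a (by simp)]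
          simp
        · intro hd
          left
          rw [hza, hzG3 (f u) hout hgf (by rw [h2, hd]; simp)]
          omega
        · intro hd
          left
          rw [hza, hzG1 (f u) hout hgf (by rw [h2, hd]; simp)]
          omega

end Pool.Agent.Helper704_OI
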