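import Pool.Agent.Helper704_OI.Block

/-!
Zero-one law for order-invariant Boolean combinations of sentences with unnested universal
quantifiers.
-/

namespace Pool.Agent.Helper704_OI.UnnestedUniversal

open Pool.Agent.Helper704_OI Filter Topology

variable {C : Type}

theorem basis {φ : Fml C} (h : BoolPos2 φ) : ∃ L : Finset (Fml C),
    (∀ σ ∈ L, Pos2 σ ∧ fv σ = ∅) ∧
    ∀ (V W : Type) (G : SimpleGraph V) (P : C → V → Prop) (r : V → V → Prop) (s : ℕ → V)
      (G' : SimpleGraph W) (P' : C → W → Prop) (r' : W → W → Prop) (s' : ℕ → W),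
      (∀ σ ∈ L, (Sat G P r σ s ↔ Sat G' P' r' σ s')) →
        (Sat G P r φ s ↔ Sat G' P' r' φ s') := by
  classical
  induction h with
  | base φ h1 h2 =>
    refine ⟨{φ}, ?_, ?_⟩
    · intro σ hσ
      rw [Finset.mem_singleton.1 hσ]; exact ⟨h1, h2⟩
    · intro V W G P r s G' P' r' s' h
      exact h φ (Finset.mem_singleton_self _)
  | neg φ _ ih =>
    obtain ⟨L, h1, h2⟩ := ih
    refine ⟨L, h1, ?_⟩
    intro V W G P r s G' P' r' s' h
    exact not_congr (h2 V W G P r s G' P' r' s' h)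
  | and φ ψ _ _ ih1 ih2 =>
    obtain ⟨L, h1, h2⟩ := ih1
    obtain ⟨L', h1', h2'⟩ := ih2
    refine ⟨L ∪ L', ?_, ?_⟩
    · intro σ hσ
      rcases Finset.mem_union.1 hσ with h | h
      · exact h1 σ h
      · exact h1' σ h
    · intro V W G P r s G' P' r' s' h
      exact and_congr (h2 V W G P r s G' P' r' s' (fun σ hσ => h σ (Finset.mem_union_left _ hσ)))
        (h2' V W G P r s G' P' r' s' (fun σ hσ => h σ (Finset.mem_union_right _ hσ)))

/-- Let `φ` be a Boolean combination of sentences with unnested universal quantifiers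
(`Pos2`: closure of the existential formulas and of the formulas `∀ x_i ψ`, `ψ` existential,
under conjunction, disjunction and existential quantifiers; arbitrary order-free formulas are
allowed as atoms). If `φ` is order-invariant, then the fraction `mu φ n` of labelled coloured
graphs on `n` vertices with the property defined by `φ` tends to `0` or to `1`. -/
theorem result (C : Type) [Finite C] (φ : Fml C) (hφ : BoolPos2 φ) (hinv : OrderInvariant φ) :
    Tendsto (mu φ) atTop (𝓝 0) ∨ Tendsto (mu φ) atTop (𝓝 1) := by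
  classical
  obtain ⟨L, hL, hdet⟩ := basis hφ
  let w := ∑ σ ∈ L, wd σ
  let q := ∑ σ ∈ L, sz σ
  let k := 1 + ∑ σ ∈ L, mk σ
  let N := q + w
  have hw : ∀ σ ∈ L, wd σ ≤ w := fun σ hσ => Finset.single_le_sum (f := wd) (by simp) hσ
  have hq : ∀ σ ∈ L, sz σ ≤ q := fun σ hσ => Finset.single_le_sum (f := sz) (by simp) hσ
  have hk : ∀ σ ∈ L, mk σ ≤ k := fun σ hσ =>
    (Finset.single_le_sum (f := mk) (by simp) hσ).trans (Nat.le_add_left _ _)
  -- the possible numbers of true sentences
  let tr : ∀ (n : ℕ), SimpleGraph (Fin n) → (C → Fin n → Prop) → (Fin n → Fin n → Prop) →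
      Finset (Fml C) := fun n G P r => L.filter (fun σ => ∀ s : ℕ → Fin n, Sat G P r σ s)
  let Q : ℕ → Prop := fun c => ∃ (m : ℕ) (G : SimpleGraph (Fin m)) (P : C → Fin m → Prop)
    (r : Fin m → Fin m → Prop), 0 < m ∧ Ext G P N k ∧ IsStrictTotalOrder (Fin m) r ∧
      (tr m G P r).card = c
  have hQb : ∀ c, Q c → c ≤ L.card := by
    rintro c ⟨m, G, P, r, -, -, -, rfl⟩
    exact Finset.card_filter_le _ _
  by_cases hex : ∃ c, Q c
  · obtain ⟨c₀, hc₀⟩ := hex
    have hmax := Nat.findGreatest_spec (P := Q) (hQb c₀ hc₀) hc₀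
    have hge : ∀ c, Q c → c ≤ Nat.findGreatest Q L.card := fun c hc =>
      Nat.le_findGreatest (hQb c hc) hc
    obtain ⟨m, G₀, P₀, r₀, hm, hE₀, hr₀, hc⟩ := hmax
    have hkm : k ≤ m := by
      obtain ⟨f, hf, -⟩ := hE₀ ∅ (by simp) (fun _ => True) (fun _ => True)
      simpa using Fintype.card_le_of_injective f hf
    have hmne : Nonempty (Fin m) := ⟨⟨0, hm⟩⟩
    let α₀ : ℕ → Fin m := fun _ => ⟨0, hm⟩
    -- witnesses for the true sentences
    have hwit : ∀ σ : Fml C, ∃ A₀ : Finset (Fin m), (σ ∈ L → A₀.card ≤ wd σ) ∧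
        (σ ∈ tr m G₀ P₀ r₀ → ∀ A : Finset (Fin m), A₀ ⊆ A →
          ∀ (W : Type) (G : SimpleGraph W) (P : C → W → Prop) (r : W → W → Prop) (q : ℕ),
          sz σ ≤ q → Ext G P N k → ∀ B : BlockExt G₀ P₀ r₀ A G P r q,
            Sat G P r σ (fun i => B.j (α₀ i))) := by
      intro σ
      by_cases hσ : σ ∈ tr m G₀ P₀ r₀
      · have hσL : σ ∈ L := (Finset.mem_filter.1 hσ).1
        have hσs := (Finset.mem_filter.1 hσ).2
        have hqσ := hq σ hσL
        obtain ⟨A₀, h1, h2⟩ := sat_pos2 (N := N) (k := k) hE₀ (hL σ hσL).1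
          (by show sz σ ≤ q + w; omega) (hk σ hσL) α₀ (hσs α₀)
        refine ⟨A₀, fun _ => h1, fun _ A hA W G P r q hq hE B => ?_⟩
        exact h2 A hA (by rw [(hL σ hσL).2]; simp) W G P r q hq hE B
      · exact ⟨∅, fun _ => by simp, fun h => absurd h hσ⟩
    choose f hf1 hf2 using hwit
    let A := L.biUnion f
    have hA : A.card ≤ w := by
      refine Finset.card_biUnion_le.trans (Finset.sum_le_sum ?_)
      intro σ hσ
      exact hf1 σ hσ
    -- typical structures
    have key : ∀ n, 1 ≤ n → ∀ ω ∈ TypS C N m n,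
        (Holds ω.1 ω.2 (· < ·) φ ↔ Holds G₀ P₀ r₀ φ) := by
      intro n hn ω hω
      have hnne : Nonempty (Fin n) := ⟨⟨0, hn⟩⟩
      have hEn : Ext ω.1 ω.2 N k := ExtR.ext hω hkm
      obtain ⟨r, hr, ⟨B⟩⟩ := exists_blockExt (N := N) (q := q) (w := w) hr₀ hm hn (by
        intro X hX t c
        obtain ⟨g, hg1, hg2⟩ := hE₀ X (hX.trans (Nat.le_add_left _ _)) t c
        refine ⟨fun u => g ⟨u.val, lt_of_lt_of_le u.2 (Nat.le_add_right _ _)⟩, ?_, fun u => hg2 _⟩
        intro u v huv
        have := hg1 huv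
        exact Fin.ext (Fin.mk.inj_iff.1 this)) A hA ω.1 ω.2 hω (le_refl _)
      have hsub : tr m G₀ P₀ r₀ ⊆ tr n ω.1 ω.2 r := by
        intro σ hσ
        have hσL : σ ∈ L := (Finset.mem_filter.1 hσ).1
        refine Finset.mem_filter.2 ⟨hσL, ?_⟩
        intro s
        have h1 := hf2 σ hσ A (Finset.subset_biUnion_of_mem f hσL) (Fin n) ω.1 ω.2 r q
          (hq σ hσL) hEn B
        exact (sat_congr ω.1 ω.2 r σ _ _ (by rw [(hL σ hσL).2]; simp)).1 h1
      have heq : tr m G₀ P₀ r₀ = tr n ω.1 ω.2 r := by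
        apply Finset.eq_of_subset_of_card_le hsub
        rw [hc]
        exact hge _ ⟨n, ω.1, ω.2, r, hn, hEn, hr, rfl⟩
      rw [hinv n ω.1 ω.2 (· < ·) r (lt_strict n) hr]
      have hdet' : ∀ (s : ℕ → Fin n) (s' : ℕ → Fin m),
          (Sat ω.1 ω.2 r φ s ↔ Sat G₀ P₀ r₀ φ s') := by
        intro s s'
        apply hdet
        intro σ hσ
        have hfv := (hL σ hσ).2
        have e1 : Sat ω.1 ω.2 r σ s ↔ σ ∈ tr n ω.1 ω.2 r := by
          constructor
          · intro h
            refine Finset.mem_filter.2 ⟨hσ, fun t => ?_⟩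
            exact (sat_congr ω.1 ω.2 r σ s t (by rw [hfv]; simp)).1 h
          · intro h; exact (Finset.mem_filter.1 h).2 s
        have e2 : Sat G₀ P₀ r₀ σ s' ↔ σ ∈ tr m G₀ P₀ r₀ := by
          constructor
          · intro h
            refine Finset.mem_filter.2 ⟨hσ, fun t => ?_⟩
            exact (sat_congr G₀ P₀ r₀ σ s' t (by rw [hfv]; simp)).1 h
          · intro h; exact (Finset.mem_filter.1 h).2 s'
        rw [e1, e2, heq]
      constructor
      · intro h s'
        exact (hdet' (fun _ => ⟨0, hn⟩) s').1 (h _)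
      · intro h s
        exact (hdet' s α₀).2 (h _)
    by_cases hh : Holds G₀ P₀ r₀ φ
    · right
      exact dens_one (N := N) hm
        (fun n => {S : SimpleGraph (Fin n) × (C → Fin n → Prop) | Holds S.1 S.2 (· < ·) φ}) 1
        (fun n hn ω hω => (key n hn ω hω).2 hh)
    · left
      exact dens_zero (N := N) hm
        (fun n => {S : SimpleGraph (Fin n) × (C → Fin n → Prop) | Holds S.1 S.2 (· < ·) φ}) 1
        (fun n hn ω hω h => hh ((key n hn ω hω).1 h))
  · -- there is no structure with the extension property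
    left
    refine dens_zero (N := N) (M := k) (by omega)
      (fun n => {S : SimpleGraph (Fin n) × (C → Fin n → Prop) | Holds S.1 S.2 (· < ·) φ}) 1 ?_
    intro n hn ω hω
    exact absurd ⟨_, n, ω.1, ω.2, (· < ·), hn, ExtR.ext hω le_rfl, lt_strict n, rfl⟩ hex

end Pool.Agent.Helper704_OI.UnnestedUniversal
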